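import Mathlib

/-! Voronoi cells of a continuous metric with near-geodesics on a subset of the plane. -/

open Set Filter Topology Metric

namespace Pool.Agent.Lib.MP_0d9445_pr.Cell

/-- `D` is a continuous metric on `S`, and any two points lie in a preconnected set of points that
are almost between them. Every continuous length metric has this property. -/
structure NearGeo (S : Set ℂ) (D : ℂ → ℂ → ℝ) : Prop where
  self : ∀ x ∈ S, D x x = 0
  symm : ∀ x ∈ S, ∀ y ∈ S, D x y = D y x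
  tri : ∀ x ∈ S, ∀ y ∈ S, ∀ z ∈ S, D x z ≤ D x y + D y z
  pos : ∀ x ∈ S, ∀ y ∈ S, x ≠ y → 0 < D x y
  cont : ContinuousOn (fun p : ℂ × ℂ => D p.1 p.2) (S ×ˢ S)
  geo : ∀ x ∈ S, ∀ y ∈ S, ∀ ε > 0, ∃ L ⊆ S, IsPreconnected L ∧ x ∈ L ∧ y ∈ L ∧
    ∀ z ∈ L, D x z + D z y ≤ D x y + ε

/-- The Voronoi cell of `x` for the point set `P`. -/
def cell (S : Set ℂ) (D : ℂ → ℂ → ℝ) (P : Set ℂ) (x : ℂ) : Set ℂ :=
  {w | w ∈ S ∧ ∀ p ∈ P, D w x ≤ D w p}

variable {S : Set ℂ} {D : ℂ → ℂ → ℝ} {P : Set ℂ}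

theorem cell_subset (x : ℂ) : cell S D P x ⊆ S := fun _ hw => hw.1

theorem cell_anti {P' : Set ℂ} (h : P ⊆ P') (x : ℂ) : cell S D P' x ⊆ cell S D P x :=
  fun _ hw => ⟨hw.1, fun p hp => hw.2 p (h hp)⟩

/-- Cells do not see a positive constant factor. -/
theorem cell_const_mul {c : ℝ} (hc : 0 < c) (x : ℂ) :
    cell S (fun a b => c * D a b) P x = cell S D P x := by
  ext w
  simp only [cell, mem_ofPred_eq, mul_le_mul_iff_right₀ hc]

/-- Cells under a change of coordinates. -/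
theorem cell_preimage (φ : ℂ → ℂ) (x : ℂ) :
    cell (φ ⁻¹' S) (fun a b => D (φ a) (φ b)) P x = φ ⁻¹' cell S D (φ '' P) (φ x) := by
  ext w
  simp only [cell, mem_ofPred_eq, mem_preimage, forall_mem_image]

/-- A preconnected set that starts inside an open set and ends outside meets its frontier. -/
theorem exists_mem_frontier {L U : Set ℂ} (hL : IsPreconnected L) (hU : IsOpen U) {x y : ℂ}
    (hx : x ∈ L) (hxU : x ∈ U) (hy : y ∈ L) (hyU : y ∉ U) : ∃ z ∈ L, z ∈ closure U ∧ z ∉ U := by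
  by_contra hne
  push Not at hne
  exact hyU (hL.subset_of_closure_inter_subset hU ⟨x, hx, hxU⟩ (fun z hz => hne z hz.2 hz.1) hy)

theorem isCompact_inter_of_subset {A B : Set ℂ} (hc : IsCompact (B ∩ S)) (hA : IsClosed A)
    (hAB : A ⊆ B) : IsCompact (A ∩ S) := by
  have := hc.inter_left hA
  rwa [← inter_assoc, inter_eq_left.2 hAB] at this

theorem isCompact_closure_inter {U W : Set ℂ} (hc : IsCompact (closure W ∩ S)) (hU : U ⊆ W) :
    IsCompact (closure U ∩ S) := isCompact_inter_of_subset hc isClosed_closure (closure_mono hU)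

namespace NearGeo

variable (h : NearGeo S D)
include h

theorem nonneg {x y : ℂ} (hx : x ∈ S) (hy : y ∈ S) : 0 ≤ D x y := by
  rcases eq_or_ne x y with rfl | hne
  · exact (h.self x hx).ge
  · exact (h.pos x hx y hy hne).le

theorem contOn_right {x : ℂ} (hx : x ∈ S) : ContinuousOn (fun z => D x z) S :=
  h.cont.comp (f := fun z => (x, z)) (by fun_prop) fun _ hz => ⟨hx, hz⟩

theorem contOn_left {x : ℂ} (hx : x ∈ S) : ContinuousOn (fun z => D z x) S :=
  h.cont.comp (f := fun z => (z, x)) (by fun_prop) fun _ hz => ⟨hz, hx⟩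

theorem const_mul {c : ℝ} (hc : 0 < c) : NearGeo S fun a b => c * D a b where
  self x hx := by rw [h.self x hx, mul_zero]
  symm x hx y hy := by rw [h.symm x hx y hy]
  tri x hx y hy z hz := by
    rw [← mul_add]
    exact mul_le_mul_of_nonneg_left (h.tri x hx y hy z hz) hc.le
  pos x hx y hy hne := mul_pos hc (h.pos x hx y hy hne)
  cont := continuousOn_const.mul h.cont
  geo x hx y hy ε hε := by
    obtain ⟨L, h1, h2, h3, h4, h5⟩ := h.geo x hx y hy (ε / c) (div_pos hε hc)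
    refine ⟨L, h1, h2, h3, h4, fun z hz => ?_⟩
    have := mul_le_mul_of_nonneg_left (h5 z hz) hc.le
    rwa [mul_add, mul_add, mul_div_cancel₀ _ hc.ne'] at this

/-- Exit lemma: a point on the frontier of `U` that lies exactly between `x` and `v`. -/
theorem exit {U : Set ℂ} (hU : IsOpen U) (hc : IsCompact (closure U ∩ S)) {x v : ℂ} (hx : x ∈ S)
    (hv : v ∈ S) (hxU : x ∈ U) (hvU : v ∉ U) :
    ∃ z ∈ S, z ∈ closure U ∧ z ∉ U ∧ D x z + D z v ≤ D x v := by
  have hC : IsCompact ((closure U ∩ S) \ U) := hc.diff hU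
  have key : ∀ ε > 0, ∃ z ∈ (closure U ∩ S) \ U, D x z + D z v ≤ D x v + ε := fun ε hε => by
    obtain ⟨L, h1, h2, h3, h4, h5⟩ := h.geo x hx v hv ε hε
    obtain ⟨z, z1, z2, z3⟩ := exists_mem_frontier h2 hU h3 hxU h4 hvU
    exact ⟨z, ⟨⟨z2, h1 z1⟩, z3⟩, h5 z z1⟩
  obtain ⟨z₁, hz₁, -⟩ := key 1 one_pos
  obtain ⟨z, hz, hmin⟩ := hC.exists_isMinOn (f := fun z => D x z + D z v) ⟨z₁, hz₁⟩
    (((h.contOn_right hx).add (h.contOn_left hv)).mono fun _ hw => hw.1.2)
  refine ⟨z, hz.1.2, hz.1.1, hz.2, le_of_forall_pos_le_add fun ε hε => ?_⟩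
  obtain ⟨z', hz', e⟩ := key ε hε
  exact (hmin hz').trans e

theorem self_mem_cell (hP : P ⊆ S) {x : ℂ} (hx : x ∈ S) : x ∈ cell S D P x :=
  ⟨hx, fun p hp => by rw [h.self x hx]; exact h.nonneg hx (hP hp)⟩

/-- A point between the centre and a point of the cell lies in the cell. -/
theorem mem_cell_of_between (hP : P ⊆ S) {x v z : ℂ} (hx : x ∈ S) (hz : z ∈ S)
    (hv : v ∈ cell S D P x) (hb : D x z + D z v ≤ D x v) : z ∈ cell S D P x := by
  refine ⟨hz, fun p hp => ?_⟩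
  have h1 := hv.2 p hp
  have h2 := h.tri v hv.1 z hz p (hP hp)
  rw [h.symm z hz x hx]
  rw [h.symm v hv.1 x hx] at h1
  rw [h.symm v hv.1 z hz] at h2
  linarith

/-- A cell that leaves an open set around its centre meets the frontier of that set. -/
theorem exit_cell (hP : P ⊆ S) {U : Set ℂ} (hU : IsOpen U) (hc : IsCompact (closure U ∩ S))
    {x v : ℂ} (hx : x ∈ S) (hv : v ∈ cell S D P x) (hxU : x ∈ U) (hvU : v ∉ U) :
    ∃ z ∈ cell S D P x, z ∈ closure U ∧ z ∉ U ∧ D x z + D z v ≤ D x v := by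
  obtain ⟨z, z1, z2, z3, z4⟩ := h.exit hU hc hx hv.1 hxU hvU
  exact ⟨z, h.mem_cell_of_between hP hx z1 hv z4, z2, z3, z4⟩

/-- Between `x` and `v` there is a point on every intermediate circle around `c`. -/
theorem exit_ball {c : ℂ} {r : ℝ} (hc : IsCompact (closedBall c r ∩ S)) {x v : ℂ} (hx : x ∈ S)
    (hv : v ∈ S) (hxr : dist x c < r) (hvr : r ≤ dist v c) :
    ∃ z ∈ S, dist z c = r ∧ D x z + D z v ≤ D x v := by
  have hr : r ≠ 0 := (dist_nonneg.trans_lt hxr).ne'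
  obtain ⟨z, z1, z2, z3, z4⟩ := h.exit (U := ball c r) isOpen_ball
    (by rwa [closure_ball c hr]) hx hv hxr (not_lt.2 hvr)
  rw [closure_ball c hr] at z2
  exact ⟨z, z1, le_antisymm z2 (not_lt.1 z3), z4⟩

theorem exit_cell_ball (hP : P ⊆ S) {c : ℂ} {r : ℝ} (hc : IsCompact (closedBall c r ∩ S))
    {x v : ℂ} (hx : x ∈ S) (hv : v ∈ cell S D P x) (hxr : dist x c < r) (hvr : r ≤ dist v c) :
    ∃ z ∈ cell S D P x, dist z c = r ∧ D x z + D z v ≤ D x v := by
  obtain ⟨z, z1, z2, z3⟩ := h.exit_ball hc hx hv.1 hxr hvr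
  exact ⟨z, h.mem_cell_of_between hP hx z1 hv z3, z2, z3⟩

/-- The part of a cell in a compact subset of `S` is compact. -/
theorem isCompact_inter_cell (hP : P ⊆ S) {x : ℂ} (hx : x ∈ S) {C : Set ℂ} (hC : IsCompact C)
    (hCS : C ⊆ S) : IsCompact (C ∩ cell S D P x) := by
  have e : C ∩ cell S D P x = C ∩ ⋂ p ∈ P, (C ∩ (fun w => D w x - D w p) ⁻¹' Iic 0) := by
    ext w
    simp only [cell, mem_inter_iff, mem_ofPred_eq, mem_iInter, mem_preimage, mem_Iic, sub_nonpos]
    exact ⟨fun hw => ⟨hw.1, fun p hp => ⟨hw.1, hw.2.2 p hp⟩⟩,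
      fun hw => ⟨hw.1, hCS hw.1, fun p hp => (hw.2 p hp).2⟩⟩
  rw [e]
  exact hC.inter_right (isClosed_biInter fun p hp =>
    (((h.contOn_left hx).sub (h.contOn_left (hP hp))).mono hCS).preimage_isClosed_of_isClosed
      hC.isClosed isClosed_Iic)

theorem isClosed_cell (hS : IsClosed S) (hP : P ⊆ S) {x : ℂ} (hx : x ∈ S) :
    IsClosed (cell S D P x) := by
  have e : cell S D P x = S ∩ ⋂ p ∈ P, (S ∩ (fun w => D w x - D w p) ⁻¹' Iic 0) := by
    ext w
    simp only [cell, mem_inter_iff, mem_ofPred_eq, mem_iInter, mem_preimage, mem_Iic, sub_nonpos]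
    exact ⟨fun hw => ⟨hw.1, fun p hp => ⟨hw.1, hw.2 p hp⟩⟩,
      fun hw => ⟨hw.1, fun p hp => (hw.2 p hp).2⟩⟩
  rw [e]
  exact hS.inter (isClosed_biInter fun p hp =>
    ((h.contOn_left hx).sub (h.contOn_left (hP hp))).preimage_isClosed_of_isClosed hS isClosed_Iic)

theorem isCompact_cell (hP : P ⊆ S) {x : ℂ} (hx : x ∈ S) {W : Set ℂ} (hc : IsCompact (W ∩ S))
    (hsub : cell S D P x ⊆ W) : IsCompact (cell S D P x) := by
  have := h.isCompact_inter_cell hP hx hc inter_subset_right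
  rwa [inter_eq_right.2 (subset_inter hsub (cell_subset x))] at this

/-- A cell inside a relatively compact open set is preconnected. -/
theorem isPreconnected_cell (hP : P ⊆ S) {x : ℂ} (hx : x ∈ S) {W : Set ℂ} (hW : IsOpen W)
    (hc : IsCompact (closure W ∩ S)) (hsub : cell S D P x ⊆ W) :
    IsPreconnected (cell S D P x) := by
  have hK := h.isCompact_cell hP hx hc (hsub.trans subset_closure)
  have hxm := h.self_mem_cell hP hx
  have key : ∀ A B : Set ℂ, IsClosed A → IsClosed B → cell S D P x ⊆ A ∪ B →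
      Disjoint (cell S D P x ∩ A) (cell S D P x ∩ B) → x ∈ A → cell S D P x ⊆ A := by
    intro A B hA hB hcov hd hxA v hv
    obtain ⟨U, V, hU, hV, h1, h2, h3⟩ :=
      SeparatedNhds.of_isCompact_isCompact (hK.inter_right hA) (hK.inter_right hB) hd
    by_contra hvA
    have hvB : v ∈ V := h2 ⟨hv, (hcov hv).resolve_left hvA⟩
    obtain ⟨z, z1, z2, z3, -⟩ := h.exit_cell hP (hU.inter hW)
      (isCompact_closure_inter hc inter_subset_right) hx hv ⟨h1 ⟨hxm, hxA⟩, hsub hxm⟩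
      fun hh => disjoint_left.1 h3 hh.1 hvB
    rcases hcov z1 with hz | hz
    · exact z3 ⟨h1 ⟨z1, hz⟩, hsub z1⟩
    · exact disjoint_left.1 (h3.closure_left hV) (closure_mono inter_subset_left z2) (h2 ⟨z1, hz⟩)
  rw [isPreconnected_closed_iff]
  intro A B hA hB hcov ⟨a, ha⟩ ⟨b, hb⟩
  by_contra hne
  have hd : Disjoint (cell S D P x ∩ A) (cell S D P x ∩ B) :=
    disjoint_left.2 fun w h1 h2 => hne ⟨w, h1.1, h1.2, h2.2⟩
  rcases hcov hxm with hxA | hxB
  · exact hne ⟨b, hb.1, key A B hA hB hcov hd hxA hb.1, hb.2⟩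
  · exact hne ⟨a, ha.1, ha.2, key B A hB hA (union_comm A B ▸ hcov) hd.symm hxB ha.1⟩

/-- Points at Euclidean distance at least `ε` from a point of a compact set are `D`-far. -/
theorem exists_sep {K : Set ℂ} (hK : IsCompact K) (hKS : K ⊆ S) {ε : ℝ} (hε : 0 < ε)
    (hc : IsCompact (cthickening ε K ∩ S)) :
    ∃ a > 0, ∀ x ∈ K, ∀ y ∈ S, ε ≤ dist y x → a ≤ D x y := by
  have hT : IsCompact ((K ×ˢ (cthickening ε K ∩ S)) ∩ {p : ℂ × ℂ | dist p.2 p.1 = ε}) :=
    (hK.prod hc).inter_right (isClosed_eq (by fun_prop) continuous_const)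
  obtain ⟨a, ha, hle⟩ := hT.exists_forall_le' (f := fun p : ℂ × ℂ => D p.1 p.2)
    (h.cont.mono fun p hp => ⟨hKS hp.1.1, hp.1.2.2⟩) (a := 0) fun p hp =>
      h.pos _ (hKS hp.1.1) _ hp.1.2.2 fun e => by
        have := hp.2
        rw [mem_ofPred_eq, e, dist_self] at this
        exact hε.ne this
  refine ⟨a, ha, fun x hx y hy hxy => ?_⟩
  obtain ⟨z, z1, z2, z3⟩ := h.exit_ball (c := x) (r := ε)
    (isCompact_inter_of_subset hc isClosed_closedBall (closedBall_subset_cthickening hx ε))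
    (hKS hx) hy (by rwa [dist_self]) hxy
  have := hle (x, z) ⟨⟨hx, mem_cthickening_of_dist_le z x ε K hx z2.le, z1⟩, z2⟩
  have h0 := h.nonneg z1 hy
  linarith

/-- Uniform continuity along the diagonal of a compact set. -/
theorem exists_near {K : Set ℂ} (hK : IsCompact K) (hKS : K ⊆ S) {ε : ℝ} (hε : 0 < ε)
    (hc : IsCompact (cthickening ε K ∩ S)) {a : ℝ} (ha : 0 < a) :
    ∃ δ > 0, δ ≤ ε ∧ ∀ x ∈ K, ∀ y ∈ S, dist y x ≤ δ → D x y < a := by
  have hT : IsCompact (K ×ˢ (cthickening ε K ∩ S)) := hK.prod hc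
  have hu := hT.uniformContinuousOn_of_continuous
    (h.cont.mono fun p hp => ⟨hKS hp.1, hp.2.2⟩)
  obtain ⟨δ, hδ, hd⟩ := Metric.uniformContinuousOn_iff.1 hu a ha
  refine ⟨min (δ / 2) ε, lt_min (half_pos hδ) hε, min_le_right _ _, fun x hx y hy hxy => ?_⟩
  have := hd (x, y) ⟨hx, mem_cthickening_of_dist_le y x ε K hx (hxy.trans (min_le_right _ _)), hy⟩
    (x, x) ⟨hx, self_subset_cthickening K hx, hKS hx⟩ (by
      rw [Prod.dist_eq, dist_self]
      exact max_lt hδ ((hxy.trans (min_le_left _ _)).trans_lt (half_lt_self hδ)))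
  rw [h.self x (hKS hx), Real.dist_eq, sub_zero] at this
  exact (le_abs_self _).trans_lt this

/-- If every point `w` of the circle of radius `r` around `x` has a point of `P` that is closer
than `x`, the cell of `x` stays inside the circle. -/
theorem cell_subset_ball (hP : P ⊆ S) {x : ℂ} (hx : x ∈ S) {r : ℝ} (hr : 0 < r)
    (hc : IsCompact (closedBall x r ∩ S))
    (hp : ∀ w ∈ S, dist w x = r → ∃ p ∈ P, D w p < D w x) : cell S D P x ⊆ ball x r := by
  intro v hv
  by_contra hvr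
  obtain ⟨z, z1, z2, -⟩ := h.exit_cell_ball hP hc hx hv (by rwa [dist_self]) (not_lt.1 hvr)
  obtain ⟨p, hp1, hp2⟩ := hp z z1.1 z2
  exact hp2.not_ge (z1.2 p hp1)

omit h in
/-- A nearest point exists as soon as finitely many points compete. -/
theorem exists_mem_cell {w p : ℂ} (hw : w ∈ S) (hp : p ∈ P)
    (hf : {q | q ∈ P ∧ D w q ≤ D w p}.Finite) : ∃ x ∈ P, w ∈ cell S D P x := by
  obtain ⟨x, hx, hmin⟩ := Set.exists_min_image _ (fun q => D w q) hf ⟨p, hp, le_rfl⟩
  refine ⟨x, hx.1, hw, fun q hq => ?_⟩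
  rcases le_total (D w q) (D w p) with h1 | h1
  · exact hmin q ⟨hq, h1⟩
  · exact hx.2.trans h1

/-- Dense point sets give small, compact, preconnected cells that cover. -/
theorem small_cells {K : Set ℂ} (hK : IsCompact K) (hKS : K ⊆ S) {ε : ℝ} (hε : 0 < ε)
    (hc : IsCompact (cthickening (3 * ε) K ∩ S)) : ∃ δ > 0, ∀ P ⊆ S,
      (∀ w ∈ cthickening (2 * ε) K ∩ S, ∃ p ∈ P, dist p w ≤ δ) →
      (∀ x ∈ S, (cell S D P x ∩ K).Nonempty → x ∈ thickening ε K ∧ x ∈ cell S D P x ∧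
        cell S D P x ⊆ ball x ε ∧ IsCompact (cell S D P x) ∧ IsPreconnected (cell S D P x)) ∧
      ((P ∩ thickening ε K).Finite → {x | x ∈ P ∧ (cell S D P x ∩ K).Nonempty}.Finite ∧
        K ⊆ ⋃ x ∈ P, cell S D P x) := by
  have hK2 : IsCompact (cthickening (2 * ε) K ∩ S) :=
    isCompact_inter_of_subset hc isClosed_cthickening (cthickening_mono (by linarith) K)
  have hc2 : IsCompact (cthickening ε (cthickening (2 * ε) K ∩ S) ∩ S) :=
    isCompact_inter_of_subset hc isClosed_cthickening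
      ((cthickening_subset_of_subset ε inter_subset_left).trans
        ((cthickening_cthickening_subset hε.le (by positivity) K).trans
          (cthickening_mono (by linarith) K)))
  obtain ⟨a, ha, hsep⟩ := h.exists_sep hK2 inter_subset_right hε hc2
  obtain ⟨δ, hδ, -, hnear⟩ := h.exists_near hK2 inter_subset_right hε hc2 ha
  refine ⟨δ, hδ, fun P hP hd => ?_⟩
  have hKK : K ⊆ cthickening (2 * ε) K ∩ S := subset_inter (self_subset_cthickening K) hKS
  have far : ∀ w ∈ cthickening (2 * ε) K ∩ S, ∃ p ∈ P, ∀ x ∈ S, ε ≤ dist x w → D w p < D w x :=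
    fun w hw => by
      obtain ⟨p, hp, hpw⟩ := hd w hw
      exact ⟨p, hp, fun x hx hxw => (hnear w hw p (hP hp) hpw).trans_le (hsep w hw x hx hxw)⟩
  have main : ∀ x ∈ S, (cell S D P x ∩ K).Nonempty → ∃ w ∈ K, dist x w < ε := by
    rintro x hx ⟨w, hw, hwK⟩
    obtain ⟨p, hp, hlt⟩ := far w (hKK hwK)
    exact ⟨w, hwK, not_le.1 fun hh => (hlt x hx hh).not_ge (hw.2 p hp)⟩
  refine ⟨fun x hx hne => ?_, fun hf => ⟨hf.subset fun x hx => ⟨hx.1, ?_⟩, fun w hw => ?_⟩⟩
  · obtain ⟨w, hw, hxw⟩ := main x hx hne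
    have hb : closedBall x ε ⊆ cthickening (2 * ε) K := fun y hy =>
      mem_cthickening_of_dist_le y w _ K hw (by
        linarith [dist_triangle y x w, mem_closedBall.1 hy])
    have hcb : IsCompact (closedBall x ε ∩ S) :=
      isCompact_inter_of_subset hK2 isClosed_closedBall hb
    have hs : cell S D P x ⊆ ball x ε := h.cell_subset_ball hP hx hε hcb fun y hy hyx => by
      obtain ⟨p, hp, hlt⟩ := far y ⟨hb hyx.le, hy⟩
      exact ⟨p, hp, hlt x hx (by rw [dist_comm, hyx])⟩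
    exact ⟨mem_thickening_iff.2 ⟨w, hw, hxw⟩, h.self_mem_cell hP hx, hs,
      h.isCompact_cell hP hx hcb (hs.trans ball_subset_closedBall),
      h.isPreconnected_cell hP hx isOpen_ball (by rwa [closure_ball x hε.ne']) hs⟩
  · exact mem_thickening_iff.2 (main x (hP hx.1) hx.2)
  · obtain ⟨p, hp, hlt⟩ := far w (hKK hw)
    obtain ⟨x, hx, hwx⟩ := exists_mem_cell (D := D) (hKS hw) hp (hf.subset fun q hq =>
      ⟨hq.1, mem_thickening_iff.2 ⟨w, hw, not_le.1 fun hh => (hlt q (hP hq.1) hh).not_ge hq.2⟩⟩)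
    exact mem_biUnion hx hwx

end NearGeo

/-- Locality. `d` is a lower bound for the distance from `w` to the points of `P` outside `U`, and
some point of `P` is closer than `d`. Then membership of `w` in a cell is decided by the truncated
distances and the points in `U`. -/
theorem mem_cell_iff_local {U : Set ℂ} {w : ℂ} {d : ℝ} (hw : w ∈ S)
    (hd : ∀ p ∈ P, p ∉ U → d ≤ D w p) (hl : ∃ p ∈ P, D w p < d) (x : ℂ) :
    w ∈ cell S D P x ↔ ∀ p ∈ P ∩ U, min (D w x) d ≤ min (D w p) d := by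
  obtain ⟨p₀, hp₀, hlt⟩ := hl
  have hU : p₀ ∈ U := by
    by_contra hh
    exact hlt.not_ge (hd p₀ hp₀ hh)
  refine ⟨fun hc p hp => min_le_min_right d (hc.2 p hp.1), fun hc => ⟨hw, fun p hp => ?_⟩⟩
  have h0 : D w x < d := by
    have := (hc p₀ ⟨hp₀, hU⟩).trans_lt ((min_le_left _ _).trans_lt hlt)
    by_contra hh
    rw [min_eq_right (not_lt.1 hh)] at this
    exact lt_irrefl _ this
  by_cases hpU : p ∈ U
  · have := hc p ⟨hp, hpU⟩
    rw [min_eq_left h0.le] at this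
    exact this.trans (min_le_left _ _)
  · exact h0.le.trans (hd p hp hpU)

/-- Under the same hypotheses the centre of a cell through `w` is closer than `d`. -/
theorem lt_of_mem_cell {w x : ℂ} {d : ℝ} (hl : ∃ p ∈ P, D w p < d) (hc : w ∈ cell S D P x) :
    D w x < d := by
  obtain ⟨p, hp, hlt⟩ := hl
  exact (hc.2 p hp).trans_lt hlt

/-- Two metrics and point sets with the same truncated local data give the same membership. -/
theorem mem_cell_congr {S' : Set ℂ} {D' : ℂ → ℂ → ℝ} {P' U : Set ℂ} {w : ℂ} {d : ℝ} (hw : w ∈ S)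
    (hw' : w ∈ S') (hPU : P ∩ U = P' ∩ U) (hT : ∀ y ∈ U, min (D w y) d = min (D' w y) d)
    (hd : ∀ p ∈ P, p ∉ U → d ≤ D w p) (hd' : ∀ p ∈ P', p ∉ U → d ≤ D' w p)
    (hl : ∃ p ∈ P, D w p < d) {x : ℂ} (hx : x ∈ U) :
    w ∈ cell S D P x ↔ w ∈ cell S' D' P' x := by
  have hl' : ∃ p ∈ P', D' w p < d := by
    obtain ⟨p, hp, hlt⟩ := hl
    have hU : p ∈ U := by
      by_contra hh
      exact hlt.not_ge (hd p hp hh)
    have hp' : p ∈ P' ∩ U := hPU ▸ ⟨hp, hU⟩
    refine ⟨p, hp'.1, ?_⟩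
    have := hT p hU
    rw [min_eq_left hlt.le] at this
    by_contra hh
    rw [min_eq_right (not_lt.1 hh)] at this
    exact hlt.ne this
  rw [mem_cell_iff_local hw hd hl, mem_cell_iff_local hw' hd' hl', hPU, hT x hx]
  exact forall₂_congr fun p hp => by rw [hT p hp.2]

end Pool.Agent.Lib.MP_0d9445_pr.Cell
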