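import Mathlib

/-! Oscillation of a vertex function along a connected contour covered by cells, and the choice
of a good contour in a one-parameter family. -/

open Set Filter Topology Metric MeasureTheory

namespace Pool.Agent.Lib.MP_0d9445_pr.Cell

variable {ι X : Type*}

/-- Two classes of closed cells that cover a preconnected set and both meet it touch on it. -/
theorem exists_touch [TopologicalSpace X] {s : Finset ι} {H : ι → Set X}
    (hH : ∀ i ∈ s, IsClosed (H i)) {L : Set X} (hL : IsPreconnected L)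
    (hc : L ⊆ ⋃ i ∈ s, H i) (p : ι → Prop) {i₁ i₂ : ι} (h1 : i₁ ∈ s) (h2 : i₂ ∈ s)
    (m1 : (H i₁ ∩ L).Nonempty) (m2 : (H i₂ ∩ L).Nonempty) (p1 : p i₁) (p2 : ¬ p i₂) :
    ∃ i ∈ s, ∃ j ∈ s, p i ∧ ¬ p j ∧ (H i ∩ H j ∩ L).Nonempty := by
  classical
  have hA : IsClosed (⋃ i ∈ s.filter p, H i) :=
    isClosed_biUnion_finset fun i hi => hH i (Finset.mem_filter.1 hi).1
  have hB : IsClosed (⋃ i ∈ s.filter (fun i => ¬ p i), H i) :=
    isClosed_biUnion_finset fun i hi => hH i (Finset.mem_filter.1 hi).1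
  obtain ⟨w, hw, hwA, hwB⟩ := isPreconnected_closed_iff.1 hL _ _ hA hB (fun w hw => by
      obtain ⟨i, hi, hwi⟩ := mem_iUnion₂.1 (hc hw)
      by_cases hp : p i
      · exact Or.inl (mem_biUnion (Finset.mem_filter.2 ⟨hi, hp⟩) hwi)
      · exact Or.inr (mem_biUnion (Finset.mem_filter.2 ⟨hi, hp⟩) hwi))
    (m1.imp fun w hw => ⟨hw.2, mem_biUnion (Finset.mem_filter.2 ⟨h1, p1⟩) hw.1⟩)
    (m2.imp fun w hw => ⟨hw.2, mem_biUnion (Finset.mem_filter.2 ⟨h2, p2⟩) hw.1⟩)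
  obtain ⟨i, hi, hwi⟩ := mem_iUnion₂.1 hwA
  obtain ⟨j, hj, hwj⟩ := mem_iUnion₂.1 hwB
  exact ⟨i, (Finset.mem_filter.1 hi).1, j, (Finset.mem_filter.1 hj).1, (Finset.mem_filter.1 hi).2,
    (Finset.mem_filter.1 hj).2, w, ⟨hwi, hwj⟩, hw⟩

/-- An interval covered by finitely many intervals is at most as long as their total length. -/
theorem sub_le_sum_of_cover {t : Finset ι} {c G : ι → ℝ} (hG : ∀ i ∈ t, 0 ≤ G i) {a b : ℝ}
    (hc : Ioc a b ⊆ ⋃ i ∈ t, Ioc (c i - G i) (c i)) : b - a ≤ ∑ i ∈ t, G i := by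
  have h1 := (measure_mono (μ := volume) hc).trans (measure_biUnion_finset_le t _)
  simp only [Real.volume_Ioc, sub_sub_cancel] at h1
  rw [← ENNReal.ofReal_sum_of_nonneg hG] at h1
  exact (ENNReal.ofReal_le_ofReal_iff (Finset.sum_nonneg hG)).1 h1

/-- (C1) The oscillation of `u` over the cells meeting a covered preconnected set `L` is at most
the sum over these cells of a bound `G` for the drop of `u` to a cell touching it on `L`. -/
theorem sub_le_sum_contour [TopologicalSpace X] {s t : Finset ι} {H : ι → Set X}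
    (hH : ∀ i ∈ s, IsClosed (H i)) {L : Set X} (hL : IsPreconnected L)
    (hc : L ⊆ ⋃ i ∈ s, H i) (ht : ∀ i ∈ s, (H i ∩ L).Nonempty → i ∈ t) {u G : ι → ℝ}
    (hG : ∀ i ∈ t, 0 ≤ G i)
    (hu : ∀ i ∈ s, ∀ j ∈ s, i ≠ j → (H i ∩ H j ∩ L).Nonempty → u i - u j ≤ G i)
    {i₁ i₂ : ι} (h1 : i₁ ∈ s) (h2 : i₂ ∈ s) (m1 : (H i₁ ∩ L).Nonempty)
    (m2 : (H i₂ ∩ L).Nonempty) : u i₁ - u i₂ ≤ ∑ i ∈ t, G i := by
  refine sub_le_sum_of_cover (c := u) hG fun r hr => ?_
  obtain ⟨i, hi, j, hj, pi, pj, hm⟩ :=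
    exists_touch hH hL hc (fun i => r ≤ u i) h1 h2 m1 m2 hr.2 (not_le.2 hr.1)
  have := hu i hi j hj (fun e => pj (e ▸ pi)) hm
  exact mem_biUnion (ht i hi (hm.imp fun w hw => ⟨hw.1.1, hw.2⟩))
    ⟨by linarith [not_le.1 pj], pi⟩

/-- The same with the sum taken over a set `E` of ordered pairs containing all touching pairs. -/
theorem sub_le_sum_edges [TopologicalSpace X] {s : Finset ι} {E : Finset (ι × ι)} {H : ι → Set X}
    (hH : ∀ i ∈ s, IsClosed (H i)) {L : Set X} (hL : IsPreconnected L)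
    (hc : L ⊆ ⋃ i ∈ s, H i) {u : ι → ℝ}
    (hE : ∀ i ∈ s, ∀ j ∈ s, u j < u i → (H i ∩ H j ∩ L).Nonempty → (i, j) ∈ E)
    {i₁ i₂ : ι} (h1 : i₁ ∈ s) (h2 : i₂ ∈ s) (m1 : (H i₁ ∩ L).Nonempty)
    (m2 : (H i₂ ∩ L).Nonempty) : u i₁ - u i₂ ≤ ∑ e ∈ E, |u e.1 - u e.2| := by
  refine sub_le_sum_of_cover (c := fun e : ι × ι => u e.1) (fun _ _ => abs_nonneg _) fun r hr => ?_
  obtain ⟨i, hi, j, hj, pi, pj, hm⟩ :=
    exists_touch hH hL hc (fun i => r ≤ u i) h1 h2 m1 m2 hr.2 (not_le.2 hr.1)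
  have hlt : u j < u i := (not_le.1 pj).trans_le pi
  refine mem_biUnion (hE i hi j hj hlt hm) ⟨?_, pi⟩
  rw [abs_of_pos (sub_pos.2 hlt)]
  linarith [not_le.1 pj]

/-- Cells meeting a covered preconnected set are joined by a chain of cells touching on it. -/
theorem reflTransGen_touch [TopologicalSpace X] {s : Finset ι} {H : ι → Set X}
    (hH : ∀ i ∈ s, IsClosed (H i)) {L : Set X} (hL : IsPreconnected L)
    (hc : L ⊆ ⋃ i ∈ s, H i) {i₁ i₂ : ι} (h1 : i₁ ∈ s) (h2 : i₂ ∈ s) (m1 : (H i₁ ∩ L).Nonempty)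
    (m2 : (H i₂ ∩ L).Nonempty) :
    Relation.ReflTransGen (fun i j => i ∈ s ∧ j ∈ s ∧ i ≠ j ∧ (H i ∩ H j ∩ L).Nonempty) i₁ i₂ := by
  by_contra hne
  obtain ⟨i, hi, j, hj, pi, pj, hm⟩ := exists_touch hH hL hc (fun i => Relation.ReflTransGen
    (fun i j => i ∈ s ∧ j ∈ s ∧ i ≠ j ∧ (H i ∩ H j ∩ L).Nonempty) i₁ i) h1 h2 m1 m2
    Relation.ReflTransGen.refl hne
  exact pj (pi.tail ⟨hi, hj, fun e => pj (e ▸ pi), hm⟩)

open Classical in
/-- Averaging over a parameter: some parameter outside a null set is no worse than the mean. -/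
theorem exists_param_le {s : Finset ι} {I : ι → Set ℝ} (hI : ∀ i ∈ s, MeasurableSet (I i))
    {G m : ι → ℝ} (hG : ∀ i ∈ s, 0 ≤ G i) (hm0 : ∀ i ∈ s, 0 ≤ m i) {a b : ℝ} (hab : a < b)
    (hm : ∀ i ∈ s, volume (I i ∩ Ioo a b) ≤ ENNReal.ofReal (m i)) {N : Set ℝ}
    (hN : volume N = 0) :
    ∃ r ∈ Ioo a b, r ∉ N ∧ ∑ i ∈ s with r ∈ I i, G i ≤ (∑ i ∈ s, G i * m i) / (b - a) := by
  set μ := (volume : Measure ℝ).restrict (Ioo a b) with hμ
  have hint : ∀ i ∈ s, Integrable ((I i).indicator fun _ => G i) μ := fun i hi =>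
    (integrable_const _).indicator (hI i hi)
  have hμ0 : μ ≠ 0 := by
    rw [hμ, Ne, Measure.restrict_eq_zero, Real.volume_Ioo, ENNReal.ofReal_eq_zero]
    linarith
  obtain ⟨r, hr, hle⟩ := exists_notMem_null_le_average (μ := μ) hμ0
    (f := fun r => ∑ i ∈ s, (I i).indicator (fun _ => G i) r) (integrable_finsetSum s hint)
    (N := N ∪ (Ioo a b)ᶜ) (by
      refine measure_union_null ?_ ?_
      · exact le_antisymm ((Measure.restrict_le_self _).trans hN.le) zero_le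
      · rw [hμ, Measure.restrict_apply measurableSet_Ioo.compl, compl_inter_self, measure_empty])
  rw [mem_union, not_or, notMem_compl_iff] at hr
  refine ⟨r, hr.2, hr.1, ?_⟩
  have e1 : ∑ i ∈ s with r ∈ I i, G i = ∑ i ∈ s, (I i).indicator (fun _ => G i) r := by
    rw [Finset.sum_filter]
    exact Finset.sum_congr rfl fun i _ => (indicator_apply (I i) (fun _ => G i) r).symm
  rw [e1]
  refine hle.trans ?_
  rw [average_eq, integral_finsetSum s hint, smul_eq_mul, div_eq_inv_mul]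
  have e2 : μ.real univ = b - a := by
    rw [hμ, measureReal_restrict_apply_univ, Real.volume_real_Ioo_of_le hab.le]
  rw [e2]
  refine mul_le_mul_of_nonneg_left (Finset.sum_le_sum fun i hi => ?_) (inv_nonneg.2 (by linarith))
  rw [integral_indicator_const _ (hI i hi), smul_eq_mul, mul_comm]
  refine mul_le_mul_of_nonneg_left ?_ (hG i hi)
  rw [hμ, measureReal_restrict_apply (hI i hi)]
  exact ENNReal.toReal_le_of_le_ofReal (hm0 i hi) (hm i hi)

/-- The values of a 1-Lipschitz function on a set of diameter at most `d` lie in an interval of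
length `d`. -/
theorem exists_Icc_of_lipschitz [PseudoMetricSpace X] {A : Set X} {d : ℝ}
    (hd : ∀ x ∈ A, ∀ y ∈ A, dist x y ≤ d) {f : X → ℝ} (hf : ∀ x y, f x - f y ≤ dist x y) :
    ∃ c, f '' A ⊆ Icc c (c + d) := by
  rcases A.eq_empty_or_nonempty with rfl | ⟨x₀, hx₀⟩
  · exact ⟨0, by simp⟩
  have hb : BddBelow (f '' A) := ⟨f x₀ - d, by
    rintro _ ⟨y, hy, rfl⟩
    linarith [hf x₀ y, hd x₀ hx₀ y hy]⟩
  refine ⟨sInf (f '' A), ?_⟩
  rintro _ ⟨x, hx, rfl⟩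
  refine ⟨csInf_le hb ⟨x, hx, rfl⟩, ?_⟩
  have : f x - d ≤ sInf (f '' A) := le_csInf ⟨_, x, hx, rfl⟩ (by
    rintro _ ⟨y, hy, rfl⟩
    linarith [hf x y, hd x hx y hy])
  linarith

open Classical in
/-- (C2) For contours `L r` inside the union of the level sets `f k = r` of finitely many
1-Lipschitz functions, some contour with `a < r < b` meets cells of small total weight. -/
theorem exists_level [PseudoMetricSpace X] {κ : Type*} [Fintype κ] {s : Finset ι} {H : ι → Set X}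
    {d G : ι → ℝ} (hd0 : ∀ i ∈ s, 0 ≤ d i) (hd : ∀ i ∈ s, ∀ x ∈ H i, ∀ y ∈ H i, dist x y ≤ d i)
    (hG : ∀ i ∈ s, 0 ≤ G i) {f : κ → X → ℝ} (hf : ∀ k x y, f k x - f k y ≤ dist x y)
    {L : ℝ → Set X} (hL : ∀ r, ∀ w ∈ L r, ∃ k, f k w = r) {a b : ℝ} (hab : a < b) {N : Set ℝ}
    (hN : volume N = 0) : ∃ r ∈ Ioo a b, r ∉ N ∧ ∑ i ∈ s with (H i ∩ L r).Nonempty, G i ≤
      Fintype.card κ * (∑ i ∈ s, G i * min (d i) (b - a)) / (b - a) := by
  have hc : ∀ i k, ∃ c, i ∈ s → f k '' H i ⊆ Icc c (c + d i) := fun i k => by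
    by_cases hi : i ∈ s
    · exact (exists_Icc_of_lipschitz (hd i hi) (hf k)).imp fun c hc _ => hc
    · exact ⟨0, fun hh => (hi hh).elim⟩
  choose c hc using hc
  obtain ⟨r, hr, hrN, hle⟩ := exists_param_le (s := s)
    (I := fun i => ⋃ k, Icc (c i k) (c i k + d i))
    (fun i _ => MeasurableSet.iUnion fun k => measurableSet_Icc) hG
    (m := fun i => Fintype.card κ * min (d i) (b - a))
    (fun i hi => mul_nonneg (Nat.cast_nonneg _) (le_min (hd0 i hi) (by linarith))) hab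
    (fun i hi => by
      rw [iUnion_inter]
      refine (measure_iUnion_fintype_le _ _).trans ?_
      rw [ENNReal.ofReal_mul (Nat.cast_nonneg _), ENNReal.ofReal_natCast, ← Finset.card_univ,
        ← nsmul_eq_mul]
      refine Finset.sum_le_card_nsmul _ _ _ fun k _ => ?_
      rcases le_total (d i) (b - a) with h1 | h1
      · rw [min_eq_left h1]
        refine (measure_mono inter_subset_left).trans ?_
        rw [Real.volume_Icc, add_sub_cancel_left]
      · rw [min_eq_right h1]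
        refine (measure_mono inter_subset_right).trans ?_
        rw [Real.volume_Ioo]) hN
  refine ⟨r, hr, hrN, le_trans ?_ (hle.trans_eq ?_)⟩
  · refine Finset.sum_le_sum_of_subset_of_nonneg (fun i hi => ?_)
      fun i hi _ => hG i (Finset.mem_filter.1 hi).1
    obtain ⟨hi, w, hw, hwL⟩ := Finset.mem_filter.1 hi
    obtain ⟨k, hk⟩ := hL r w hwL
    exact Finset.mem_filter.2 ⟨hi, mem_iUnion.2 ⟨k, hc i k hi ⟨w, hw, hk⟩⟩⟩
  · rw [Finset.mul_sum]
    congr 1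
    exact Finset.sum_congr rfl fun i _ => by ring

open Classical in
/-- (C2) after Cauchy-Schwarz. -/
theorem exists_level_sqrt [PseudoMetricSpace X] {κ : Type*} [Fintype κ] {s : Finset ι}
    {H : ι → Set X} {d G : ι → ℝ} (hd0 : ∀ i ∈ s, 0 ≤ d i)
    (hd : ∀ i ∈ s, ∀ x ∈ H i, ∀ y ∈ H i, dist x y ≤ d i)
    (hG : ∀ i ∈ s, 0 ≤ G i) {f : κ → X → ℝ} (hf : ∀ k x y, f k x - f k y ≤ dist x y)
    {L : ℝ → Set X} (hL : ∀ r, ∀ w ∈ L r, ∃ k, f k w = r) {a b : ℝ} (hab : a < b) {N : Set ℝ}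
    (hN : volume N = 0) : ∃ r ∈ Ioo a b, r ∉ N ∧ ∑ i ∈ s with (H i ∩ L r).Nonempty, G i ≤
      Fintype.card κ * (√(∑ i ∈ s, G i ^ 2) * √(∑ i ∈ s, min (d i) (b - a) ^ 2)) / (b - a) := by
  obtain ⟨r, hr, hrN, hle⟩ := exists_level hd0 hd hG hf hL hab hN
  refine ⟨r, hr, hrN, hle.trans ?_⟩
  gcongr
  exact Real.sum_mul_le_sqrt_mul_sqrt s _ _

end Pool.Agent.Lib.MP_0d9445_pr.Cell
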