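import Mathlib

/-! Frames (boundaries of squares) and hash contours in the plane. -/

open Set Filter Topology Metric

namespace Pool.Agent.Lib.MP_0d9445_pr.Cell

/-- Sup-norm distance. -/
noncomputable def sn (c w : ℂ) : ℝ := max |w.re - c.re| |w.im - c.im|

/-- The boundary of the square of radius `r` around `c`. -/
def frame (c : ℂ) (r : ℝ) : Set ℂ := {w | sn c w = r}

/-- The four lines at distance `r` from `c`, cut to the rectangle `[a₁, b₁] × [a₂, b₂]`. -/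
def hash (c : ℂ) (r a₁ b₁ a₂ b₂ : ℝ) : Set ℂ :=
  {w | w.re ∈ Icc a₁ b₁ ∧ w.im ∈ Icc a₂ b₂ ∧ (|w.re - c.re| = r ∨ |w.im - c.im| = r)}

theorem sn_nonneg (c w : ℂ) : 0 ≤ sn c w := le_max_of_le_left (abs_nonneg _)

theorem sn_self (c : ℂ) : sn c c = 0 := by simp [sn]

theorem sn_comm (c w : ℂ) : sn c w = sn w c := by rw [sn, sn, abs_sub_comm, abs_sub_comm w.im]

theorem sn_le_iff {c w : ℂ} {r : ℝ} : sn c w ≤ r ↔ |w.re - c.re| ≤ r ∧ |w.im - c.im| ≤ r :=
  max_le_iff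

theorem sn_lt_iff {c w : ℂ} {r : ℝ} : sn c w < r ↔ |w.re - c.re| < r ∧ |w.im - c.im| < r :=
  max_lt_iff

theorem sn_triangle (a b c : ℂ) : sn a c ≤ sn a b + sn b c := by
  obtain ⟨h1, h2⟩ := sn_le_iff.1 (le_refl (sn a b))
  obtain ⟨h3, h4⟩ := sn_le_iff.1 (le_refl (sn b c))
  exact sn_le_iff.2 ⟨by linarith [abs_sub_le c.re b.re a.re], by linarith [abs_sub_le c.im b.im a.im]⟩

theorem sn_le_dist (c w : ℂ) : sn c w ≤ dist w c := by
  rw [Complex.dist_eq]
  exact max_le (by simpa using Complex.abs_re_le_norm (w - c))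
    (by simpa using Complex.abs_im_le_norm (w - c))

theorem dist_le_sn (c w : ℂ) : dist w c ≤ 2 * sn c w := by
  rw [Complex.dist_eq]
  have := Complex.norm_le_abs_re_add_abs_im (w - c)
  simp only [Complex.sub_re, Complex.sub_im] at this
  obtain ⟨h1, h2⟩ := sn_le_iff.1 (le_refl (sn c w))
  linarith

theorem sn_sub_le (c x y : ℂ) : sn c x - sn c y ≤ dist x y := by
  linarith [sn_triangle c y x, sn_le_dist y x]

theorem continuous_sn (c : ℂ) : Continuous (sn c) := by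
  unfold sn
  fun_prop

theorem abs_re_sub_le (c x y : ℂ) : |x.re - c.re| - |y.re - c.re| ≤ dist x y := by
  linarith [abs_sub_le x.re y.re c.re, (sn_le_iff.1 (sn_le_dist y x)).1]

theorem abs_im_sub_le (c x y : ℂ) : |x.im - c.im| - |y.im - c.im| ≤ dist x y := by
  linarith [abs_sub_le x.im y.im c.im, (sn_le_iff.1 (sn_le_dist y x)).2]

/-- A preconnected set with points on both sides of a frame meets it. -/
theorem meets_frame {A : Set ℂ} (hA : IsPreconnected A) {c x y : ℂ} {r : ℝ} (hx : x ∈ A)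
    (hy : y ∈ A) (h1 : sn c x ≤ r) (h2 : r ≤ sn c y) : (A ∩ frame c r).Nonempty := by
  obtain ⟨z, hz, e⟩ := hA.intermediate_value hx hy (continuous_sn c).continuousOn ⟨h1, h2⟩
  exact ⟨z, hz, e⟩

theorem convex_vert (t a b : ℝ) : Convex ℝ {w : ℂ | w.re = t ∧ w.im ∈ Icc a b} :=
  ((convex_singleton t).linear_preimage Complex.reLm).inter
    ((convex_Icc a b).linear_preimage Complex.imLm)

theorem convex_hor (t a b : ℝ) : Convex ℝ {w : ℂ | w.im = t ∧ w.re ∈ Icc a b} :=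
  ((convex_singleton t).linear_preimage Complex.imLm).inter
    ((convex_Icc a b).linear_preimage Complex.reLm)

theorem isPreconnected_hash {c : ℂ} {r a₁ b₁ a₂ b₂ : ℝ} (hr : 0 ≤ r) (h1 : a₁ ≤ c.re - r)
    (h2 : c.re + r ≤ b₁) (h3 : a₂ ≤ c.im - r) (h4 : c.im + r ≤ b₂) :
    IsPreconnected (hash c r a₁ b₁ a₂ b₂) := by
  have e : hash c r a₁ b₁ a₂ b₂ =
      (({w : ℂ | w.re = c.re + r ∧ w.im ∈ Icc a₂ b₂} ∪ {w : ℂ | w.im = c.im + r ∧ w.re ∈ Icc a₁ b₁}) ∪
        {w : ℂ | w.re = c.re - r ∧ w.im ∈ Icc a₂ b₂}) ∪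
        {w : ℂ | w.im = c.im - r ∧ w.re ∈ Icc a₁ b₁} := by
    ext w
    simp only [hash, mem_ofPred_eq, mem_union, mem_Icc, abs_eq hr]
    constructor
    · rintro ⟨k1, k2, (k | k) | k | k⟩
      · exact Or.inl (Or.inl (Or.inl ⟨by linarith, k2⟩))
      · exact Or.inl (Or.inr ⟨by linarith, k2⟩)
      · exact Or.inl (Or.inl (Or.inr ⟨by linarith, k1⟩))
      · exact Or.inr ⟨by linarith, k1⟩
    · rintro (((⟨k, k2⟩ | ⟨k, k1⟩) | ⟨k, k2⟩) | ⟨k, k1⟩)
      · exact ⟨⟨by linarith, by linarith⟩, k2, Or.inl (Or.inl (by linarith))⟩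
      · exact ⟨k1, ⟨by linarith, by linarith⟩, Or.inr (Or.inl (by linarith))⟩
      · exact ⟨⟨by linarith, by linarith⟩, k2, Or.inl (Or.inr (by linarith))⟩
      · exact ⟨k1, ⟨by linarith, by linarith⟩, Or.inr (Or.inr (by linarith))⟩
  rw [e]
  refine IsPreconnected.union (⟨c.re - r, c.im - r⟩ : ℂ) (Or.inr ⟨rfl, h3, by simp only; linarith⟩)
    ⟨rfl, h1, by simp only; linarith⟩ ?_ (convex_hor _ _ _).isPreconnected
  refine IsPreconnected.union (⟨c.re - r, c.im + r⟩ : ℂ) (Or.inr ⟨rfl, h1, by simp only; linarith⟩)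
    ⟨rfl, by simp only; linarith, h4⟩ ?_ (convex_vert _ _ _).isPreconnected
  exact IsPreconnected.union (⟨c.re + r, c.im + r⟩ : ℂ) ⟨rfl, by simp only; linarith, h4⟩
    ⟨rfl, by simp only; linarith, h2⟩ (convex_vert _ _ _).isPreconnected
    (convex_hor _ _ _).isPreconnected

theorem frame_eq_hash (c : ℂ) (r : ℝ) :
    frame c r = hash c r (c.re - r) (c.re + r) (c.im - r) (c.im + r) := by
  ext w
  simp only [frame, hash, mem_ofPred_eq, mem_Icc]
  constructor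
  · intro h
    obtain ⟨h1, h2⟩ := sn_le_iff.1 h.le
    rw [abs_le] at h1 h2
    refine ⟨⟨by linarith, by linarith⟩, ⟨by linarith, by linarith⟩, ?_⟩
    rcases max_choice |w.re - c.re| |w.im - c.im| with k | k
    · exact Or.inl (k.symm.trans h)
    · exact Or.inr (k.symm.trans h)
  · rintro ⟨h1, h2, k⟩
    refine le_antisymm (sn_le_iff.2 ⟨abs_le.2 ⟨by linarith, by linarith⟩,
      abs_le.2 ⟨by linarith, by linarith⟩⟩) ?_
    rcases k with k | k
    · exact k ▸ le_max_left _ _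
    · exact k ▸ le_max_right _ _

theorem isPreconnected_frame (c : ℂ) {r : ℝ} (hr : 0 ≤ r) : IsPreconnected (frame c r) := by
  rw [frame_eq_hash]
  exact isPreconnected_hash hr le_rfl le_rfl le_rfl le_rfl

theorem hash_mono (c : ℂ) (r : ℝ) {a₁ b₁ a₂ b₂ a₁' b₁' a₂' b₂' : ℝ} (h1 : a₁' ≤ a₁) (h2 : b₁ ≤ b₁')
    (h3 : a₂' ≤ a₂) (h4 : b₂ ≤ b₂') : hash c r a₁ b₁ a₂ b₂ ⊆ hash c r a₁' b₁' a₂' b₂' :=
  fun _ hw => ⟨Icc_subset_Icc h1 h2 hw.1, Icc_subset_Icc h3 h4 hw.2.1, hw.2.2⟩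

theorem frame_subset_hash {c : ℂ} {r a₁ b₁ a₂ b₂ : ℝ} (h1 : a₁ ≤ c.re - r)
    (h2 : c.re + r ≤ b₁) (h3 : a₂ ≤ c.im - r) (h4 : c.im + r ≤ b₂) :
    frame c r ⊆ hash c r a₁ b₁ a₂ b₂ := by
  rw [frame_eq_hash]
  exact hash_mono c r h1 h2 h3 h4

/-- The two level functions of a hash contour. -/
noncomputable def lev (c : ℂ) : Bool → ℂ → ℝ
  | true => fun w => |w.re - c.re|
  | false => fun w => |w.im - c.im|

theorem lev_sub_le (c : ℂ) (k : Bool) (x y : ℂ) : lev c k x - lev c k y ≤ dist x y := by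
  cases k
  · exact abs_im_sub_le c x y
  · exact abs_re_sub_le c x y

theorem exists_lev {c w : ℂ} {r a₁ b₁ a₂ b₂ : ℝ} (hw : w ∈ hash c r a₁ b₁ a₂ b₂) :
    ∃ k, lev c k w = r :=
  hw.2.2.elim (fun h => ⟨true, h⟩) fun h => ⟨false, h⟩

/-- The centred hash contour of radius `r` and reach `R`. -/
def chash (c : ℂ) (r R : ℝ) : Set ℂ := hash c r (c.re - R) (c.re + R) (c.im - R) (c.im + R)

theorem mem_chash {c w : ℂ} {r R : ℝ} :
    w ∈ chash c r R ↔ sn c w ≤ R ∧ (|w.re - c.re| = r ∨ |w.im - c.im| = r) := by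
  simp only [chash, hash, mem_ofPred_eq, mem_Icc, sn_le_iff, abs_le]
  constructor
  · rintro ⟨h1, h2, k⟩
    exact ⟨⟨⟨by linarith, by linarith⟩, ⟨by linarith, by linarith⟩⟩, k⟩
  · rintro ⟨⟨h1, h2⟩, k⟩
    exact ⟨⟨by linarith, by linarith⟩, ⟨by linarith, by linarith⟩, k⟩

theorem le_sn_of_mem_chash {c w : ℂ} {r R : ℝ} (hw : w ∈ chash c r R) : r ≤ sn c w := by
  rcases (mem_chash.1 hw).2 with k | k
  · exact k ▸ le_max_left _ _
  · exact k ▸ le_max_right _ _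

theorem isPreconnected_chash (c : ℂ) {r R : ℝ} (hr : 0 ≤ r) (hR : r ≤ R) :
    IsPreconnected (chash c r R) :=
  isPreconnected_hash hr (by linarith) (by linarith) (by linarith) (by linarith)

theorem frame_subset_chash (c : ℂ) {r R : ℝ} (hR : r ≤ R) : frame c r ⊆ chash c r R :=
  frame_subset_hash (by linarith) (by linarith) (by linarith) (by linarith)

/-- A centred hash contour meets every frame within its reach. -/
theorem chash_inter_frame (c : ℂ) {r R ρ : ℝ} (hr : 0 ≤ r) (h1 : r ≤ ρ) (h2 : ρ ≤ R) :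
    (chash c r R ∩ frame c ρ).Nonempty := by
  have e1 : |(⟨c.re + r, c.im + ρ⟩ : ℂ).re - c.re| = r := by simp [abs_of_nonneg hr]
  have e2 : |(⟨c.re + r, c.im + ρ⟩ : ℂ).im - c.im| = ρ := by simp [abs_of_nonneg (hr.trans h1)]
  have e : sn c ⟨c.re + r, c.im + ρ⟩ = ρ := by rw [sn, e1, e2, max_eq_right h1]
  exact ⟨⟨c.re + r, c.im + ρ⟩, mem_chash.2 ⟨e.le.trans h2, Or.inl e1⟩, e⟩

/-- A frame around `x` that is larger than the distance to the outside of a square leaves it. -/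
theorem frame_leaves {c x y : ℂ} {R r : ℝ} (hy : R ≤ sn c y) (hxy : sn x y ≤ r) :
    ∃ w ∈ frame x r, R ≤ sn c w := by
  have hr : 0 ≤ r := (sn_nonneg _ _).trans hxy
  obtain ⟨h1, h2⟩ := sn_le_iff.1 hxy
  rw [abs_le] at h1 h2
  have f1 : ∀ t : ℝ, |t| = r → (⟨x.re + t, x.im⟩ : ℂ) ∈ frame x r := fun t ht => by
    simp [frame, sn, ht, hr]
  have f2 : ∀ t : ℝ, |t| = r → (⟨x.re, x.im + t⟩ : ℂ) ∈ frame x r := fun t ht => by
    simp [frame, sn, ht, hr]
  rcases le_max_iff.1 hy with k | k <;> rcases le_abs.1 k with k | k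
  · exact ⟨_, f1 r (abs_of_nonneg hr), le_max_of_le_left (le_abs.2 (Or.inl (by simp only; linarith)))⟩
  · exact ⟨_, f1 (-r) (by rw [abs_neg, abs_of_nonneg hr]),
      le_max_of_le_left (le_abs.2 (Or.inr (by simp only; linarith)))⟩
  · exact ⟨_, f2 r (abs_of_nonneg hr), le_max_of_le_right (le_abs.2 (Or.inl (by simp only; linarith)))⟩
  · exact ⟨_, f2 (-r) (by rw [abs_neg, abs_of_nonneg hr]),
      le_max_of_le_right (le_abs.2 (Or.inr (by simp only; linarith)))⟩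

end Pool.Agent.Lib.MP_0d9445_pr.Cell
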