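import Pool.Agent.Lib.MP_0d9445_pr.Net.Green
import Pool.Agent.Lib.MP_0d9445_pr.Cell.Contour
import Pool.Agent.Lib.MP_0d9445_pr.Cell.Frame

/-! A finite window of cells carried by a net: contours, maximum principle through a frame,
equicontinuity. -/

open Set MeasureTheory
open scoped Classical

noncomputable section

namespace Pool.Agent.Lib.MP_0d9445_pr.Cell

variable {V : Type*}

/-- The closed square. -/
def sqC (c : ℂ) (r : ℝ) : Set ℂ := {w | sn c w ≤ r}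

/-- The open square. -/
def sqO (c : ℂ) (r : ℝ) : Set ℂ := {w | sn c w < r}

theorem sqO_subset (c : ℂ) (r : ℝ) : sqO c r ⊆ sqC c r := fun w hw => (show sn c w < r from hw).le

theorem frame_subset (c : ℂ) (r : ℝ) : frame c r ⊆ sqC c r := fun _ hw => le_of_eq hw

theorem sqC_mono (c : ℂ) {r R : ℝ} (h : r ≤ R) : sqC c r ⊆ sqC c R := fun _ hw => le_trans hw h

theorem sqO_mono (c : ℂ) {r R : ℝ} (h : r ≤ R) : sqO c r ⊆ sqO c R :=
  fun _ hw => lt_of_lt_of_le hw h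

theorem chash_subset (c : ℂ) (r R : ℝ) : chash c r R ⊆ sqC c R := fun _ hw => (mem_chash.1 hw).1

theorem convex_sqC (c : ℂ) (r : ℝ) : Convex ℝ (sqC c r) := by
  have e : sqC c r = Complex.reLm ⁻¹' Icc (c.re - r) (c.re + r) ∩
      Complex.imLm ⁻¹' Icc (c.im - r) (c.im + r) := by
    ext w
    simp only [sqC, mem_ofPred_eq, sn_le_iff, abs_le, mem_inter_iff, mem_preimage, mem_Icc,
      Complex.reLm_coe, Complex.imLm_coe]
    constructor
    · rintro ⟨h1, h2⟩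
      exact ⟨⟨by linarith, by linarith⟩, by linarith, by linarith⟩
    · rintro ⟨h1, h2⟩
      exact ⟨⟨by linarith, by linarith⟩, by linarith, by linarith⟩
  rw [e]
  exact ((convex_Icc _ _).linear_preimage _).inter ((convex_Icc _ _).linear_preimage _)

theorem frame_nonempty (c : ℂ) {r : ℝ} (hr : 0 ≤ r) : (frame c r).Nonempty :=
  (chash_inter_frame c hr le_rfl le_rfl).mono inter_subset_right

/-- A convex set that contains a frame contains the square. -/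
theorem sqC_subset_of_convex {U : Set ℂ} (hU : Convex ℝ U) {c : ℂ} {r : ℝ}
    (h : frame c r ⊆ U) : sqC c r ⊆ U := by
  intro w hw
  obtain ⟨h1, h2⟩ := sn_le_iff.1 hw
  have hr : 0 ≤ r := (abs_nonneg _).trans h1
  have f : ∀ t : ℝ, |t| = r → (⟨c.re + t, w.im⟩ : ℂ) ∈ U := fun t ht => h (by
    simp only [frame, sn, mem_ofPred_eq, add_sub_cancel_left, ht]
    exact max_eq_left h2)
  have hc : Convex ℝ {t : ℝ | (⟨t, w.im⟩ : ℂ) ∈ U} := by
    intro a ha b hb α β hα hβ hαβ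
    have := hU ha hb hα hβ hαβ
    have e : (⟨α • a + β • b, w.im⟩ : ℂ) = α • (⟨a, w.im⟩ : ℂ) + β • (⟨b, w.im⟩ : ℂ) := by
      apply Complex.ext
      · simp
      · simp [← add_mul, hαβ]
    exact (e ▸ this : (⟨α • a + β • b, w.im⟩ : ℂ) ∈ U)
  rw [abs_le] at h1
  exact hc.ordConnected.out (f (-r) (by rw [abs_neg, abs_of_nonneg hr])) (f r (abs_of_nonneg hr))
    (show w.re ∈ Icc (c.re + -r) (c.re + r) from ⟨by linarith, by linarith⟩)

/-- If every point outside `U` is joined outside `U` to a point far away, a small frame inside `U`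
has its square inside `U`. -/
theorem sqO_subset_of_far {U : Set ℂ} {c : ℂ} {r : ℝ}
    (hU : ∀ w ∈ sqO c r, w ∉ U → ∃ A, IsPreconnected A ∧ Disjoint A U ∧ w ∈ A ∧ ¬ A ⊆ sqO c r)
    (h : frame c r ⊆ U) : sqO c r ⊆ U := by
  intro w hw
  by_contra hwU
  obtain ⟨A, hA, hd, hwA, hn⟩ := hU w hw hwU
  obtain ⟨v, hv, hvn⟩ := not_subset.1 hn
  obtain ⟨z, hz, hzf⟩ := meets_frame hA hwA hv (le_of_lt hw) (not_lt.1 hvn)
  exact disjoint_left.1 hd hz (h hzf)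

/-- The cells `H x`, `x ∈ s`, form a window of the net `G` over the set `K`. -/
structure CW (G : Net V) (H : V → Set ℂ) (s : Finset V) (K : Set ℂ) : Prop where
  closed : ∀ x ∈ s, IsClosed (H x)
  conn : ∀ x ∈ s, IsPreconnected (H x)
  nonempty : ∀ x ∈ s, (H x).Nonempty
  cover : K ⊆ ⋃ x ∈ s, H x
  adj : ∀ x ∈ s, ∀ y ∈ s, x ≠ y → (H x ∩ H y).Nonempty → y ∈ G.N x
  nbr : ∀ x ∈ s, H x ⊆ K → ∀ y ∈ G.N x, y ∈ s ∧ (H x ∩ H y).Nonempty

/-- The cells meeting `A`. -/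
def mt (H : V → Set ℂ) (s : Finset V) (A : Set ℂ) : Finset V :=
  s.filter fun x => (H x ∩ A).Nonempty

/-- The cells inside `A`. -/
def ins (H : V → Set ℂ) (s : Finset V) (A : Set ℂ) : Finset V := s.filter fun x => H x ⊆ A

variable {G : Net V} {H : V → Set ℂ} {s : Finset V} {K : Set ℂ}

theorem mem_mt {A : Set ℂ} {x : V} : x ∈ mt H s A ↔ x ∈ s ∧ (H x ∩ A).Nonempty := Finset.mem_filter

theorem mem_ins {A : Set ℂ} {x : V} : x ∈ ins H s A ↔ x ∈ s ∧ H x ⊆ A := Finset.mem_filter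

theorem mt_subset (A : Set ℂ) : mt H s A ⊆ s := Finset.filter_subset _ _

theorem ins_subset (A : Set ℂ) : ins H s A ⊆ s := Finset.filter_subset _ _

theorem mt_mono {A B : Set ℂ} (h : A ⊆ B) : mt H s A ⊆ mt H s B := fun _ hx =>
  mem_mt.2 ⟨(mem_mt.1 hx).1, (mem_mt.1 hx).2.mono (inter_subset_inter_right _ h)⟩

theorem ins_mono {A B : Set ℂ} (h : A ⊆ B) : ins H s A ⊆ ins H s B := fun _ hx =>
  mem_ins.2 ⟨(mem_ins.1 hx).1, (mem_ins.1 hx).2.trans h⟩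

/-- (C2) on a net: some contour of the family meets cells of small total gradient. -/
theorem exists_contour (G : Net V) {κ : Type*} [Fintype κ] {f : κ → ℂ → ℝ}
    (hf : ∀ k x y, f k x - f k y ≤ dist x y) {L : ℝ → Set ℂ} (hL : ∀ r, ∀ w ∈ L r, ∃ k, f k w = r)
    {a b : ℝ} (hab : a < b) {t : Finset V} (ht : ∀ r ∈ Ioo a b, mt H s (L r) ⊆ t) {d : V → ℝ}
    (hd0 : ∀ x ∈ t, 0 ≤ d x) (hd : ∀ x ∈ t, ∀ v ∈ H x, ∀ w ∈ H x, dist v w ≤ d x) (u : V → ℝ)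
    {N : Set ℝ} (hN : volume N = 0) : ∃ r ∈ Ioo a b, r ∉ N ∧ ∑ x ∈ mt H s (L r), G.gr u x ≤
      Fintype.card κ * (√(2 * G.en t u u) * √(∑ x ∈ t, min (d x) (b - a) ^ 2)) / (b - a) := by
  obtain ⟨r, hr, hrN, hle⟩ := exists_level_sqrt (s := t) (G := G.gr u) hd0 hd
    (fun x _ => G.gr_nonneg u x) hf hL hab hN
  rw [G.sum_gr_sq] at hle
  refine ⟨r, hr, hrN, le_trans (Finset.sum_le_sum_of_subset_of_nonneg (fun x hx => ?_)
    fun x _ _ => G.gr_nonneg u x) hle⟩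
  exact Finset.mem_filter.2 ⟨ht r hr hx, (mem_mt.1 hx).2⟩

namespace CW

variable (h : CW G H s K)
include h

theorem mono {K' : Set ℂ} (hK : K' ⊆ K) : CW G H s K' :=
  ⟨h.closed, h.conn, h.nonempty, hK.trans h.cover, h.adj, fun x hx hh => h.nbr x hx (hh.trans hK)⟩

theorem exists_mem {w : ℂ} (hw : w ∈ K) : ∃ x ∈ s, w ∈ H x := by
  obtain ⟨x, hx, hwx⟩ := mem_iUnion₂.1 (h.cover hw)
  exact ⟨x, hx, hwx⟩

theorem ins_subset_mt (A : Set ℂ) : ins H s A ⊆ mt H s A := fun x hx => by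
  obtain ⟨h1, h2⟩ := mem_ins.1 hx
  exact mem_mt.2 ⟨h1, (h.nonempty x h1).mono (subset_inter Subset.rfl h2)⟩

/-- Neighbours of a cell inside `A` meet `A`. -/
theorem nbr_mem_mt {A : Set ℂ} (hA : A ⊆ K) {x y : V} (hx : x ∈ ins H s A) (hy : y ∈ G.N x) :
    y ∈ mt H s A := by
  obtain ⟨h1, h2⟩ := mem_ins.1 hx
  obtain ⟨h3, w, hw⟩ := h.nbr x h1 (h2.trans hA) y hy
  exact mem_mt.2 ⟨h3, w, hw.2, h2 hw.1⟩

theorem ins_subset_inner {A : Set ℂ} (hA : A ⊆ K) : ins H s A ⊆ G.inner (mt H s A) := fun _ hx =>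
  G.mem_inner.2 ⟨h.ins_subset_mt A hx, fun _ hy => h.nbr_mem_mt hA hx hy⟩

theorem reach {L : Set ℂ} (hL : IsPreconnected L) (hK : L ⊆ K) {x y : V} (hx : x ∈ mt H s L)
    (hy : y ∈ mt H s L) : G.Reach x y :=
  Relation.ReflTransGen.mono (fun a b hab =>
      h.adj a hab.1 b hab.2.1 hab.2.2.1 (hab.2.2.2.mono inter_subset_left)) _ _
    (reflTransGen_touch h.closed hL (hK.trans h.cover) (mem_mt.1 hx).1 (mem_mt.1 hy).1
      (mem_mt.1 hx).2 (mem_mt.1 hy).2)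

/-- The walk escapes from the cells inside `A`. -/
theorem esc {A L : Set ℂ} (hL : IsPreconnected L) (hK : L ⊆ K) (hA : A ⊆ L) (hn : ¬ L ⊆ A) :
    G.Esc (ins H s A) := by
  intro x hx
  obtain ⟨w, hw, hwA⟩ := not_subset.1 hn
  obtain ⟨y, hy, hwy⟩ := h.exists_mem (hK hw)
  exact ⟨y, fun hh => hwA ((mem_ins.1 hh).2 hwy),
    h.reach hL hK (mt_mono hA (h.ins_subset_mt A hx)) (mem_mt.2 ⟨hy, w, hwy, hw⟩)⟩

theorem esc_sqO {c : ℂ} {r : ℝ} (hr : 0 ≤ r) (hK : sqC c r ⊆ K) : G.Esc (ins H s (sqO c r)) := by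
  obtain ⟨w, hw⟩ := frame_nonempty c hr
  exact h.esc (convex_sqC c r).isPreconnected hK (sqO_subset c r)
    fun hh => (ne_of_lt (hh (frame_subset c r hw))) hw

/-- (C1) on a net. -/
theorem osc {L : Set ℂ} (hL : IsPreconnected L) (hK : L ⊆ K) (u : V → ℝ) {x y : V}
    (hx : x ∈ mt H s L) (hy : y ∈ mt H s L) : u x - u y ≤ ∑ z ∈ mt H s L, G.gr u z :=
  sub_le_sum_contour h.closed hL (hK.trans h.cover) (fun _ hi hm => mem_mt.2 ⟨hi, hm⟩)
    (fun z _ => G.gr_nonneg u z)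
    (fun i hi j hj hne hm => (le_abs_self _).trans
      (G.abs_sub_le_gr u (h.adj i hi j hj hne (hm.mono inter_subset_left))))
    (mem_mt.1 hx).1 (mem_mt.1 hy).1 (mem_mt.1 hx).2 (mem_mt.1 hy).2

/-- (C1) and (C2) together: a contour with small oscillation. -/
theorem exists_osc {κ : Type*} [Fintype κ] {f : κ → ℂ → ℝ}
    (hf : ∀ k x y, f k x - f k y ≤ dist x y) {L : ℝ → Set ℂ} (hL : ∀ r, ∀ w ∈ L r, ∃ k, f k w = r)
    {a b : ℝ} (hab : a < b) (hc : ∀ r ∈ Ioo a b, IsPreconnected (L r))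
    (hK : ∀ r ∈ Ioo a b, L r ⊆ K) {t : Finset V} (ht : ∀ r ∈ Ioo a b, mt H s (L r) ⊆ t)
    {d : V → ℝ} (hd0 : ∀ x ∈ t, 0 ≤ d x) (hd : ∀ x ∈ t, ∀ v ∈ H x, ∀ w ∈ H x, dist v w ≤ d x)
    (u : V → ℝ) : ∃ r ∈ Ioo a b, ∀ x ∈ mt H s (L r), ∀ y ∈ mt H s (L r), u x - u y ≤
      Fintype.card κ * (√(2 * G.en t u u) * √(∑ x ∈ t, min (d x) (b - a) ^ 2)) / (b - a) := by
  obtain ⟨r, hr, -, hle⟩ := exists_contour G hf hL hab ht hd0 hd u measure_empty
  exact ⟨r, hr, fun x hx y hy => (h.osc (hc r hr) (hK r hr) u hx hy).trans hle⟩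

theorem frame_or_ins {c : ℂ} {r : ℝ} {x : V} (hx : x ∈ mt H s (sqC c r)) :
    x ∈ mt H s (frame c r) ∨ x ∈ ins H s (sqO c r) := by
  obtain ⟨h1, w, hw, hwr⟩ := mem_mt.1 hx
  by_cases hh : H x ⊆ sqO c r
  · exact Or.inr (mem_ins.2 ⟨h1, hh⟩)
  · obtain ⟨v, hv, hvr⟩ := not_subset.1 hh
    exact Or.inl (mem_mt.2 ⟨h1, meets_frame (h.conn x h1) hw hv hwr (not_lt.1 hvr)⟩)

/-- (C3) Maximum principle inside a frame, with a supersolution `p` for the source. -/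
theorem le_of_frame {c : ℂ} {r : ℝ} (hr : 0 ≤ r) (hK : sqC c r ⊆ K) (F : Finset V) {u p : V → ℝ}
    {M : ℝ} (hu : ∀ x ∈ F, x ∈ ins H s (sqO c r) → G.lap u x ≤ G.lap p x)
    (hp : ∀ x ∈ mt H s (sqC c r), 0 ≤ p x) (h1 : ∀ x ∈ mt H s (frame c r), u x ≤ M)
    (h2 : ∀ x ∈ ins H s (sqO c r), x ∉ F → u x ≤ M) :
    ∀ x ∈ mt H s (sqC c r), u x ≤ M + p x := by
  have out : ∀ x ∈ mt H s (sqC c r), x ∉ F ∩ ins H s (sqO c r) → u x ≤ M + p x := by
    intro x hx hn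
    rcases h.frame_or_ins hx with k | k
    · linarith [h1 x k, hp x hx]
    · linarith [h2 x k fun hF => hn (Finset.mem_inter.2 ⟨hF, k⟩), hp x hx]
  intro x hx
  by_cases hxF : x ∈ F ∩ ins H s (sqO c r)
  · refine G.comparison ((h.esc_sqO hr hK).mono Finset.inter_subset_right) (k := 0)
      (v := (fun _ => M) + p) (fun _ _ => le_rfl) (fun z hz => ?_) (fun z hz y hy hn => ?_) x hxF
    · rw [G.lap_add, G.lap_const]
      simpa using hu z (Finset.mem_inter.1 hz).1 (Finset.mem_inter.1 hz).2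
    · exact out y (mt_mono (sqO_subset c r) (h.nbr_mem_mt ((sqO_subset c r).trans hK)
        (Finset.mem_inter.1 hz).2 hy)) hn
  · exact out x hx hxF

/-- (C3) outside a frame. -/
theorem le_of_frame_out {U : Set ℂ} (hU : U ⊆ K) (hE : G.Esc (ins H s U)) {c : ℂ} {r : ℝ}
    {u : V → ℝ} {M : ℝ} (hu : ∀ x ∈ ins H s U, x ∉ mt H s (sqC c r) → G.lap u x ≤ 0)
    (h1 : ∀ x ∈ mt H s (frame c r), u x ≤ M) (h2 : ∀ x ∈ s, x ∉ ins H s U → u x ≤ M) :
    ∀ x ∈ s, x ∉ ins H s (sqO c r) → u x ≤ M := by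
  have out : ∀ x ∈ s, x ∉ ins H s (sqO c r) → x ∉ ins H s U \ mt H s (sqC c r) → u x ≤ M := by
    intro x hx hi hn
    by_cases hxU : x ∈ ins H s U
    · have : x ∈ mt H s (sqC c r) := by
        by_contra hh
        exact hn (Finset.mem_sdiff.2 ⟨hxU, hh⟩)
      exact h1 x ((h.frame_or_ins this).resolve_right hi)
    · exact h2 x hx hxU
  intro x hx hi
  by_cases hxF : x ∈ ins H s U \ mt H s (sqC c r)
  · refine G.harm_le (hE.mono Finset.sdiff_subset)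
      (fun z hz => hu z (Finset.mem_sdiff.1 hz).1 (Finset.mem_sdiff.1 hz).2)
      (fun z hz y hy hn => ?_) x hxF
    obtain ⟨z1, z2⟩ := Finset.mem_sdiff.1 hz
    obtain ⟨y1, w, hw⟩ := h.nbr z (mem_ins.1 z1).1 ((mem_ins.1 z1).2.trans hU) y hy
    exact out y y1 (fun hh => z2 (mem_mt.2 ⟨(mem_ins.1 z1).1, w, hw.1,
      sqO_subset c r ((mem_ins.1 hh).2 hw.2)⟩)) hn
  · exact out x hx hi hxF

/-- Oscillation inside a frame from the oscillation on it, the boundary data and the source. -/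
theorem osc_of_frame {c : ℂ} {r : ℝ} (hr : 0 ≤ r) (hK : sqC c r ⊆ K) {U : Set ℂ}
    (hU : frame c r ⊆ U → sqO c r ⊆ U) {u p : V → ℝ} {o ω : ℝ} (hω : 0 ≤ ω)
    (hu : ∀ x ∈ ins H s (U ∩ sqO c r), |G.lap u x| ≤ G.lap p x)
    (hp : ∀ x ∈ mt H s (sqC c r), 0 ≤ p x)
    (ho : ∀ x ∈ mt H s (frame c r), ∀ y ∈ mt H s (frame c r), u x - u y ≤ o)
    (hg : ∀ x ∈ mt H s (sqC c r), ∀ y ∈ mt H s (sqC c r), ¬ H x ⊆ U → ¬ H y ⊆ U → u x - u y ≤ ω) :
    ∀ x ∈ mt H s (sqC c r), ∀ y ∈ mt H s (sqC c r), u x - u y ≤ o + 2 * ω + p x + p y := by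
  have key : ∀ v : V → ℝ, (∀ x ∈ ins H s (U ∩ sqO c r), G.lap v x ≤ G.lap p x) →
      (∀ x ∈ mt H s (sqC c r), ∀ y ∈ mt H s (sqC c r), ¬ H x ⊆ U → ¬ H y ⊆ U → v x - v y ≤ ω) →
      ∀ M, (∀ x ∈ mt H s (frame c r), v x ≤ M) → ∀ x ∈ mt H s (sqC c r), v x ≤ M + ω + p x := by
    intro v hv hvg M hM
    refine h.le_of_frame hr hK (ins H s U) (fun x hx hx' => hv x (mem_ins.2 ⟨(mem_ins.1 hx).1,
      subset_inter (mem_ins.1 hx).2 (mem_ins.1 hx').2⟩)) hp (fun x hx => by linarith [hM x hx])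
      fun x hx hn => ?_
    have hxU : ¬ H x ⊆ U := fun hh => hn (mem_ins.2 ⟨(mem_ins.1 hx).1, hh⟩)
    obtain ⟨w, hw, hwU⟩ := not_subset.1 fun hh => hxU ((mem_ins.1 hx).2.trans (hU hh))
    obtain ⟨y, hy, hwy⟩ := h.exists_mem (hK (frame_subset c r hw))
    have hyf : y ∈ mt H s (frame c r) := mem_mt.2 ⟨hy, w, hwy, hw⟩
    linarith [hM y hyf, hvg x (mt_mono (sqO_subset c r) (h.ins_subset_mt _ hx)) y
      (mt_mono (frame_subset c r) hyf) hxU fun hh => hwU (hh hwy)]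
  obtain ⟨w, hw⟩ := frame_nonempty c hr
  obtain ⟨y₀, hy₀, hwy⟩ := h.exists_mem (hK (frame_subset c r hw))
  obtain ⟨a, ha, hmax⟩ := Finset.exists_max_image (mt H s (frame c r)) u
    ⟨y₀, mem_mt.2 ⟨hy₀, w, hwy, hw⟩⟩
  intro x hx y hy
  have k1 := key u (fun z hz => (le_abs_self _).trans (hu z hz)) hg (u a) hmax x hx
  have k2 := key (-u) (fun z hz => by rw [G.lap_neg]; exact (neg_le_abs _).trans (hu z hz))
    (fun z hz z' hz' e e' => by
      simp only [Pi.neg_apply]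
      linarith [hg z' hz' z hz e' e]) (o - u a)
    (fun z hz => by
      simp only [Pi.neg_apply]
      linarith [ho a ha z hz]) y hy
  simp only [Pi.neg_apply] at k2
  linarith

/-- One of `n` separated annuli carries a frame with small oscillation. -/
theorem exists_frame {c : ℂ} {R : ℝ} (hR : 0 < R) (hK : sqC c R ⊆ K) {n : ℕ} (hn : 0 < n)
    {d : V → ℝ} (hd0 : ∀ x ∈ s, 0 ≤ d x) (hd : ∀ x ∈ s, ∀ v ∈ H x, ∀ w ∈ H x, dist v w ≤ d x)
    (hε : ∀ x ∈ mt H s (sqC c R), d x ≤ R / 4 ^ n) {Y E : ℝ}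
    (hY : ∀ j < n, ∑ x ∈ mt H s (sqC c (R / 4 ^ j)), d x ^ 2 ≤ Y * (R / 4 ^ j) ^ 2) {u : V → ℝ}
    (hE : G.en (mt H s (sqC c R)) u u ≤ E) : ∃ r, R / 4 ^ n < r ∧ r < R ∧
      ∀ x ∈ mt H s (frame c r), ∀ y ∈ mt H s (frame c r), u x - u y ≤ √(8 * E * Y / n) := by
  have hb : ∀ j : ℕ, 0 < R / 4 ^ j := fun j => by positivity
  have hanti : ∀ {j k : ℕ}, j ≤ k → R / 4 ^ k ≤ R / 4 ^ j := fun hjk => by gcongr; norm_num
  have hsucc : ∀ j : ℕ, R / 4 ^ (j + 1) = R / 4 ^ j / 4 := fun j => by rw [pow_succ, div_div]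
  set A : ℕ → Set ℂ := fun j => {w | R / 4 ^ j / 2 < sn c w ∧ sn c w < R / 4 ^ j} with hA
  have hAs : ∀ j, A j ⊆ sqC c (R / 4 ^ j) := fun j w hw => hw.2.le
  have hAR : ∀ j, mt H s (A j) ⊆ mt H s (sqC c R) := fun j =>
    mt_mono ((hAs j).trans (sqC_mono c (by simpa using hanti (Nat.zero_le j))))
  have hdis : ∀ j < n, ∀ k, j < k → Disjoint (mt H s (A j)) (mt H s (A k)) := by
    intro j hj k hjk
    refine Finset.disjoint_left.2 fun x h1 h2 => ?_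
    obtain ⟨hx, v, hv, hv'⟩ := mem_mt.1 h1
    obtain ⟨-, w, hw, hw'⟩ := mem_mt.1 h2
    have e1 := hanti (Nat.succ_le_of_lt hjk)
    have e2 := hanti (Nat.succ_le_of_lt hj)
    rw [Nat.succ_eq_add_one, hsucc] at e1 e2
    linarith [sn_sub_le c v w, hd x hx v hv w hw, hε x (hAR j h1), hv'.1, hw'.2]
  have hsum : ∑ j ∈ Finset.range n, G.en (mt H s (A j)) u u ≤ ∑ _j ∈ Finset.range n, E / n := by
    rw [← G.en_biUnion _ _ fun j hj k hk hne => ?_, Finset.sum_const, Finset.card_range,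
      nsmul_eq_mul, mul_div_cancel₀ _ (by positivity)]
    · exact (G.en_mono (Finset.biUnion_subset.2 fun j _ => hAR j) u).trans hE
    · rcases lt_or_gt_of_ne hne with e | e
      · exact hdis j (Finset.mem_range.1 hj) k e
      · exact (hdis k (Finset.mem_range.1 hk) j e).symm
  obtain ⟨j, hj, hEj⟩ := Finset.exists_le_of_sum_le ⟨0, Finset.mem_range.2 hn⟩ hsum
  have hj' := Finset.mem_range.1 hj
  have hjR : R / 4 ^ j ≤ R := by simpa using hanti (Nat.zero_le j)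
  obtain ⟨r, hr, hosc⟩ := h.exists_osc (κ := Unit) (f := fun _ => sn c)
    (fun _ => sn_sub_le c) (L := frame c) (fun r w hw => ⟨(), hw⟩) (a := R / 4 ^ j / 2)
    (b := R / 4 ^ j) (by linarith [hb j])
    (fun r hr => isPreconnected_frame c (by linarith [hr.1, hb j]))
    (fun r hr => (frame_subset c r).trans ((sqC_mono c (hr.2.le.trans hjR)).trans hK))
    (t := mt H s (A j))
    (fun r hr => mt_mono fun w hw => ⟨hr.1.trans_eq hw.symm, hw.trans_lt hr.2⟩)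
    (fun x hx => hd0 x (mt_subset _ hx)) (fun x hx => hd x (mt_subset _ hx)) u
  have e2 := hanti (Nat.succ_le_of_lt hj')
  rw [Nat.succ_eq_add_one, hsucc] at e2
  refine ⟨r, by linarith [hr.1, hb j], hr.2.trans_le hjR, fun x hx y hy =>
    (hosc x hx y hy).trans ?_⟩
  have hS : ∑ x ∈ mt H s (A j), min (d x) (R / 4 ^ j - R / 4 ^ j / 2) ^ 2 ≤
      Y * (R / 4 ^ j) ^ 2 := by
    refine le_trans ?_ (hY j hj')
    refine (Finset.sum_le_sum fun x hx => ?_).trans (Finset.sum_le_sum_of_subset_of_nonneg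
      (mt_mono (hAs j)) fun x _ _ => sq_nonneg (d x))
    exact pow_le_pow_left₀ (le_min (hd0 x (mt_subset _ hx)) (by linarith [hb j]))
      (min_le_left _ _) 2
  have hY0 : 0 ≤ Y := by
    have := (Finset.sum_nonneg fun x _ => sq_nonneg _).trans hS
    exact nonneg_of_mul_nonneg_left this (pow_pos (hb j) 2)
  have hE0 : 0 ≤ E / n := (G.en_nonneg _ u).trans hEj
  rw [Fintype.card_unit, Nat.cast_one, one_mul, div_le_iff₀ (by linarith [hb j]),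
    ← Real.sqrt_mul (mul_nonneg zero_le_two (G.en_nonneg _ u))]
  have e3 : √(8 * E * Y / n) * (R / 4 ^ j - R / 4 ^ j / 2) =
      √(2 * (E / n) * (Y * (R / 4 ^ j) ^ 2)) := by
    rw [← Real.sqrt_sq (show 0 ≤ R / 4 ^ j - R / 4 ^ j / 2 by linarith [hb j]),
      ← Real.sqrt_mul' _ (sq_nonneg _)]
    congr 1
    ring
  rw [e3]
  gcongr

/-- (C4) Equicontinuity, in the interior of `U` and up to its boundary. -/
theorem equi {c : ℂ} {R : ℝ} (hR : 0 < R) (hK : sqC c R ⊆ K) {n : ℕ} (hn : 0 < n)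
    {d : V → ℝ} (hd0 : ∀ x ∈ s, 0 ≤ d x) (hd : ∀ x ∈ s, ∀ v ∈ H x, ∀ w ∈ H x, dist v w ≤ d x)
    (hε : ∀ x ∈ mt H s (sqC c R), d x ≤ R / 4 ^ n) {Y E : ℝ}
    (hY : ∀ j < n, ∑ x ∈ mt H s (sqC c (R / 4 ^ j)), d x ^ 2 ≤ Y * (R / 4 ^ j) ^ 2) {u : V → ℝ}
    (hE : G.en (mt H s (sqC c R)) u u ≤ E) {U : Set ℂ}
    (hU : ∀ r, 0 < r → r < R → frame c r ⊆ U → sqO c r ⊆ U) {p : V → ℝ} {ω P : ℝ} (hω : 0 ≤ ω)
    (hu : ∀ x ∈ ins H s (U ∩ sqO c R), |G.lap u x| ≤ G.lap p x)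
    (hp : ∀ x ∈ mt H s (sqC c R), 0 ≤ p x ∧ p x ≤ P)
    (hg : ∀ x ∈ mt H s (sqC c R), ∀ y ∈ mt H s (sqC c R), ¬ H x ⊆ U → ¬ H y ⊆ U → u x - u y ≤ ω) :
    ∀ x ∈ mt H s (sqC c (R / 4 ^ n)), ∀ y ∈ mt H s (sqC c (R / 4 ^ n)),
      u x - u y ≤ √(8 * E * Y / n) + 2 * ω + 2 * P := by
  obtain ⟨r, h1, h2, ho⟩ := h.exists_frame hR hK hn hd0 hd hε hY hE
  have hr : 0 < r := lt_trans (by positivity) h1
  have hm : mt H s (sqC c r) ⊆ mt H s (sqC c R) := mt_mono (sqC_mono c h2.le)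
  intro x hx y hy
  have hx' := mt_mono (sqC_mono c h1.le) hx
  have hy' := mt_mono (sqC_mono c h1.le) hy
  have := h.osc_of_frame hr.le ((sqC_mono c h2.le).trans hK) (hU r hr h2) hω
    (fun z hz => hu z (ins_mono (inter_subset_inter_right _ (sqO_mono c h2.le)) hz))
    (fun z hz => (hp z (hm hz)).1) ho (fun z hz z' hz' => hg z (hm hz) z' (hm hz')) x hx' y hy'
  linarith [(hp x (hm hx')).2, (hp y (hm hy')).2]

end CW

end Pool.Agent.Lib.MP_0d9445_pr.Cell
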