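import Pool.Agent.Lib.MP_0d9445_pr.Cell.Micro

/-! Geometric scale bounds make the potential of a small square small. -/

open Set Filter Topology
open scoped Classical

noncomputable section

namespace Pool.Agent.Lib.MP_0d9445_pr.Cell

theorem geom_up {q : ℝ} (hq : 1 < q) (k j : ℕ) :
    ∑ i ∈ Finset.range (j + 1), q ^ (k + i) ≤ q / (q - 1) * q ^ (k + j) := by
  have h0 : 0 < q - 1 := by linarith
  have h1 : ∑ i ∈ Finset.range (j + 1), q ^ (k + i) = q ^ k * ((q ^ (j + 1) - 1) / (q - 1)) := by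
    rw [← geom_sum_eq hq.ne', Finset.mul_sum]
    exact Finset.sum_congr rfl fun i _ => pow_add q k i
  rw [h1, pow_add q k j, pow_succ q j, ← mul_div_assoc, div_mul_eq_mul_div]
  refine div_le_div_of_nonneg_right ?_ h0.le
  nlinarith [pow_pos (zero_lt_one.trans hq) k]

theorem geom_down {t : ℝ} (ht0 : 0 ≤ t) (ht : t < 1) (k n : ℕ) :
    ∑ i ∈ Finset.range n, t ^ (k + i) ≤ t ^ k / (1 - t) := by
  have h1 : ∑ i ∈ Finset.range n, t ^ (k + i) = t ^ k * ∑ i ∈ Finset.range n, t ^ i := by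
    rw [Finset.mul_sum]
    exact Finset.sum_congr rfl fun i _ => pow_add t k i
  rw [h1, div_eq_mul_inv, ← tsum_geometric_of_lt_one ht0 ht]
  exact mul_le_mul_of_nonneg_left ((summable_geometric_of_lt_one ht0 ht).sum_le_tsum _
    fun i _ => pow_nonneg ht0 i) (pow_nonneg ht0 k)

/-- The bound of `CW.pot_le` for geometric data. -/
theorem micro_num {A q t : ℝ} (hA : 0 ≤ A) (hq : 1 < q) (ht : 0 ≤ t) (hqt : q * t < 1) {ε : ℝ}
    (hε : 0 < ε) : ∃ θ > 0, ∀ᶠ k : ℕ in atTop, ∀ (J : ℕ) (η : ℝ), 0 ≤ η → q ^ (k + J) * η ≤ θ →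
      ∑ j ∈ Finset.range (J + 1),
          32 * (∑ i ∈ Finset.range (j + 1), √(A * q ^ (k + i))) ^ 2 * (A * t ^ (k + j) + η) +
        (1 + 32 * (∑ i ∈ Finset.range (J + 1), √(A * q ^ (k + i))) ^ 2) * (A * t ^ (k + J) + η) ≤
        ε := by
  have hq0 : 0 < q := zero_lt_one.trans hq
  have hs : 1 < √q := by rwa [Real.lt_sqrt zero_le_one, one_pow]
  set B := 32 * (A * (√q / (√q - 1)) ^ 2) with hB
  have hB0 : 0 ≤ B := by positivity
  have hb : ∀ k j : ℕ, 32 * (∑ i ∈ Finset.range (j + 1), √(A * q ^ (k + i))) ^ 2 ≤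
      B * q ^ (k + j) := fun k j => by
    have e : ∀ n : ℕ, √(A * q ^ n) = √A * √q ^ n := fun n => by
      rw [Real.sqrt_mul hA, ← Real.sqrt_sq (pow_nonneg (Real.sqrt_nonneg q) n), ← pow_mul,
        mul_comm n 2, pow_mul, Real.sq_sqrt hq0.le]
    simp only [e, ← Finset.mul_sum]
    have h1 := geom_up hs k j
    have h2 : (√q ^ (k + j)) ^ 2 = q ^ (k + j) := by
      rw [← pow_mul, mul_comm, pow_mul, Real.sq_sqrt hq0.le]
    calc 32 * (√A * _) ^ 2 ≤ 32 * (√A * (√q / (√q - 1) * √q ^ (k + j))) ^ 2 := by gcongr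
      _ = _ := by rw [mul_pow, mul_pow, h2, Real.sq_sqrt hA, hB]; ring
  have hqt0 : 0 ≤ q * t := by positivity
  have htq : t ≤ q * t := by nlinarith
  set C := B * (q / (q - 1)) + 1 + B with hC
  have hq1 : 0 < q - 1 := by linarith
  have hC0 : 0 < C := by positivity
  refine ⟨ε / 2 / C, by positivity, ?_⟩
  have hlim : Tendsto (fun k : ℕ => (B * A / (1 - q * t) + A + B * A) * (q * t) ^ k) atTop
      (𝓝 0) := by
    simpa using (tendsto_pow_atTop_nhds_zero_of_lt_one hqt0 hqt).const_mul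
      (B * A / (1 - q * t) + A + B * A)
  filter_upwards [hlim.eventually (gt_mem_nhds (half_pos hε))] with k hk J η hη hθ
  have h1 : ∑ j ∈ Finset.range (J + 1),
      32 * (∑ i ∈ Finset.range (j + 1), √(A * q ^ (k + i))) ^ 2 * (A * t ^ (k + j) + η) ≤
      B * A * ((q * t) ^ k / (1 - q * t)) + B * η * (q / (q - 1) * q ^ (k + J)) := by
    refine (Finset.sum_le_sum (g := fun j => B * A * (q * t) ^ (k + j) + B * η * q ^ (k + j))
      fun j _ => ?_).trans ?_
    · refine (mul_le_mul_of_nonneg_right (hb k j) (by positivity)).trans_eq ?_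
      rw [mul_pow]
      ring
    · rw [Finset.sum_add_distrib, ← Finset.mul_sum, ← Finset.mul_sum]
      gcongr
      · exact geom_down hqt0 hqt k _
      · exact geom_up hq k J
  have hp : (q * t) ^ (k + J) ≤ (q * t) ^ k :=
    pow_le_pow_of_le_one hqt0 hqt.le (Nat.le_add_right k J)
  have hp' : t ^ (k + J) ≤ (q * t) ^ k := (pow_le_pow_left₀ ht htq _).trans hp
  have hη' : η ≤ q ^ (k + J) * η := le_mul_of_one_le_left hη (one_le_pow₀ hq.le)
  have h2 : (1 + 32 * (∑ i ∈ Finset.range (J + 1), √(A * q ^ (k + i))) ^ 2) *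
      (A * t ^ (k + J) + η) ≤ A * (q * t) ^ k + q ^ (k + J) * η + B * A * (q * t) ^ k +
        B * (q ^ (k + J) * η) := by
    refine (mul_le_mul_of_nonneg_right (add_le_add_right (hb k J) 1) (by positivity)).trans ?_
    have e : (1 + B * q ^ (k + J)) * (A * t ^ (k + J) + η) =
        A * t ^ (k + J) + η + B * A * (q * t) ^ (k + J) + B * (q ^ (k + J) * η) := by
      rw [mul_pow]
      ring
    rw [e]
    gcongr
  have h3 : C * (q ^ (k + J) * η) ≤ ε / 2 := by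
    rw [le_div_iff₀ hC0] at hθ
    linarith
  have e1 : B * A * ((q * t) ^ k / (1 - q * t)) = B * A / (1 - q * t) * (q * t) ^ k := by ring
  have e2 : B * η * (q / (q - 1) * q ^ (k + J)) = B * (q / (q - 1)) * (q ^ (k + J) * η) := by ring
  rw [hC] at h3
  linarith

universe u

/-- MICRO in absolute dyadic levels: scale sums at most `A q ^ j`, weights of squares of radius
`2 / 2 ^ j` at most `A t ^ j + η`, isolation at level `J`. For large `k` the potential inside any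
set of sup-diameter less than `2 / 2 ^ k` is small once `q ^ J η` is small. -/
theorem pot_small {A q t : ℝ} (hA : 0 ≤ A) (hq : 1 < q) (ht : 0 ≤ t) (hqt : q * t < 1) {ε : ℝ}
    (hε : 0 < ε) : ∃ θ > 0, ∀ᶠ k : ℕ in atTop, ∀ {V : Type u} {G : Net V} {H : V → Set ℂ}
      {s : Finset V} {K U : Set ℂ} {d : V → ℝ} {pos : V → ℂ} {f : V → ℝ} {J : ℕ} {η : ℝ},
      CW G H s K → (∀ c ∈ U, sqC c (2 / 2 ^ k) ⊆ K) → (∀ c ∈ U, U ⊆ sqO c (2 / 2 ^ k)) →
      (∀ x ∈ s, 0 ≤ d x) → (∀ x ∈ s, ∀ v ∈ H x, ∀ w ∈ H x, dist v w ≤ d x) →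
      (∀ x ∈ s, pos x ∈ H x) → (∀ y ∈ ins H s U, 0 ≤ f y) → k ≤ J → 0 ≤ η → q ^ J * η ≤ θ →
      (∀ y ∈ ins H s U, f y ≠ 0 → ∀ j, k ≤ j → j ≤ J →
        kap H s d (pos y) (1 / 2 ^ j) ≤ A * q ^ j) →
      (∀ y ∈ ins H s U, f y ≠ 0 → ∀ x ∈ s, x ≠ y → 1 / 2 ^ J ≤ sn (pos y) (pos x)) →
      (∀ x ∈ ins H s U, ∀ j, k ≤ j → j ≤ J →
        ∑ y ∈ ins H s U with sn (pos x) (pos y) < 2 / 2 ^ j, f y ≤ A * t ^ j + η) →
      ∀ x, G.solve (ins H s U) 0 f 0 x ≤ ε := by
  obtain ⟨θ, hθ, hk⟩ := micro_num hA hq ht hqt hε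
  refine ⟨θ, hθ, hk.mono fun k hk => ?_⟩
  intro V G H s K U d pos f J η h hK hU hd0 hd hpos hf hkJ hη hθ' hκ hiso hm x
  obtain ⟨J, rfl⟩ := Nat.exists_eq_add_of_le hkJ
  have e : ∀ j : ℕ, (1 / 2 ^ k : ℝ) / 2 ^ j = 1 / 2 ^ (k + j) := fun j => by
    rw [pow_add, div_div]
  have e2 : ∀ j : ℕ, (2 * (1 / 2 ^ j) : ℝ) = 2 / 2 ^ j := fun j => by ring
  by_cases hx : x ∈ ins H s U
  · refine (h.pot_le (R := 1 / 2 ^ k) (by positivity) (by simpa only [e2] using hK)
      (by simpa only [e2] using hU) hd0 hd hpos hf (J := J) (κ := fun j => A * q ^ (k + j))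
      (m := fun j => A * t ^ (k + j) + η) (fun y hy hfy j hj => ?_) (by simpa only [e] using hiso)
      hx fun j hj => ?_).trans (hk J η hη hθ')
    · rw [e]
      exact hκ y hy hfy _ (Nat.le_add_right _ _) (Nat.add_le_add_left hj k)
    · rw [e, e2]
      exact hm x hx _ (Nat.le_add_right _ _) (Nat.add_le_add_left hj k)
  · rcases (ins H s U).eq_empty_or_nonempty with h0 | ⟨y, hy⟩
    · rw [G.solve_out (k := 0) (by rw [h0]; exact fun _ hh => absurd hh (Finset.notMem_empty _))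
        (fun _ _ => le_rfl) f 0 hx]
      exact hε.le
    · have hpU : pos y ∈ U := (mem_ins.1 hy).2 (hpos y (mem_ins.1 hy).1)
      rw [G.solve_out (k := 0) ((h.esc_sqO (by positivity) (hK _ hpU)).mono (ins_mono (hU _ hpU)))
        (fun _ _ => le_rfl) f 0 hx]
      exact hε.le

end Pool.Agent.Lib.MP_0d9445_pr.Cell
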