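import Pool.Agent.Lib.MP_0d9445_pr.Net.Green

/-! A priori bounds for the discrete boundary value problem. -/

open Finset
open scoped Classical

noncomputable section

namespace Pool.Agent.Lib.MP_0d9445_pr.Cell

variable {V : Type*} {G : Net V} {F S : Finset V} {k f b u : V → ℝ}

/-- Upper bound by a constant plus a supersolution. -/
theorem sol_le (hF : G.Esc F) (hk : ∀ x ∈ F, 0 ≤ k x) (hu : G.Sol F k f b u) {M : ℝ} {p : V → ℝ}
    (hp : ∀ x ∈ F, 0 ≤ p x) (hf : ∀ x ∈ F, f x ≤ k x * M + G.lap p x)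
    (hb : ∀ x ∈ F, ∀ y ∈ G.N x, y ∉ F → b y ≤ M + p y) : ∀ x ∈ F, u x ≤ M + p x :=
  G.comparison hF hk (v := (fun _ => M) + p) (fun x hx => by
    rw [hu.2 x hx, G.lap_add, G.lap_const, Pi.add_apply]
    nlinarith [hf x hx, mul_nonneg (hk x hx) (hp x hx)])
    fun x hx y hy hn => by rw [hu.1 y hn]; exact hb x hx y hy hn

theorem sol_neg (hu : G.Sol F k f b u) : G.Sol F k (-f) (-b) (-u) := by
  simpa using hu.smul (-1)

theorem abs_sol_le_add (hF : G.Esc F) (hk : ∀ x ∈ F, 0 ≤ k x) (hu : G.Sol F k f b u) {M : ℝ}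
    {p : V → ℝ} (hp : ∀ x ∈ F, 0 ≤ p x) (hf : ∀ x ∈ F, |f x| ≤ k x * M + G.lap p x)
    (hb : ∀ x ∈ F, ∀ y ∈ G.N x, y ∉ F → |b y| ≤ M + p y) : ∀ x ∈ F, |u x| ≤ M + p x :=
  fun x hx => abs_le.2 ⟨neg_le.1 (sol_le hF hk (sol_neg hu) hp
      (fun z hz => (neg_le_abs _).trans (hf z hz))
      (fun z hz y hy hn => (neg_le_abs _).trans (hb z hz y hy hn)) x hx),
    sol_le hF hk hu hp (fun z hz => (le_abs_self _).trans (hf z hz))
      (fun z hz y hy hn => (le_abs_self _).trans (hb z hz y hy hn)) x hx⟩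

/-- The resolvent bound. -/
theorem abs_sol_le (hF : G.Esc F) (hk : ∀ x ∈ F, 0 ≤ k x) (hu : G.Sol F k f b u) {M : ℝ}
    (hf : ∀ x ∈ F, |f x| ≤ k x * M) (hb : ∀ x ∈ F, ∀ y ∈ G.N x, y ∉ F → |b y| ≤ M) :
    ∀ x ∈ F, |u x| ≤ M := fun x hx => by
  simpa using abs_sol_le_add hF hk hu (M := M) (p := 0) (fun _ _ => le_rfl)
    (fun z hz => by simpa [G.lap_zero] using hf z hz)
    (fun z hz y hy hn => by simpa using hb z hz y hy hn) x hx

/-- Energy of a function that equals `b` off `F`, from the size of its Laplacian. -/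
theorem en_le_of_lap (hS : F ⊆ G.inner S) (hu : ∀ x, x ∉ F → u x = b x) {ℓ : V → ℝ} {B : ℝ}
    (hl : ∀ x ∈ F, |G.lap u x| ≤ ℓ x) (hB : ∀ x ∈ F, |u x - b x| ≤ B) :
    G.en S u u ≤ 2 * B * ∑ x ∈ F, ℓ x + G.en S b b := by
  have h1 : G.en S u (u - b) = ∑ x ∈ F, G.lap u x * (u - b) x :=
    G.en_eq_sum hS u fun x hx => by rw [Pi.sub_apply, hu x hx, sub_self]
  have h2 : ∑ x ∈ F, G.lap u x * (u - b) x ≤ B * ∑ x ∈ F, ℓ x := by
    rw [mul_sum]
    refine sum_le_sum fun x hx => (le_abs_self _).trans ?_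
    rw [abs_mul, mul_comm]
    exact mul_le_mul (hB x hx) (hl x hx) (abs_nonneg _) ((abs_nonneg _).trans (hB x hx))
  have h3 := G.en_nonneg S (u - b)
  rw [G.en_sub_self] at h3
  rw [G.en_sub_right] at h1
  linarith

/-- Energy of a function that is Lipschitz in the positions. -/
theorem en_le_of_lip {pos : V → ℂ} {L : ℝ}
    (h : ∀ x ∈ S, ∀ y ∈ G.N x, |b x - b y| ≤ L * dist (pos x) (pos y)) :
    G.en S b b ≤ L ^ 2 * (G.en S (fun x => (pos x).re) (fun x => (pos x).re) +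
      G.en S (fun x => (pos x).im) fun x => (pos x).im) := by
  simp only [Net.en, ← mul_add, ← sum_add_distrib]
  rw [mul_left_comm]
  refine mul_le_mul_of_nonneg_left ?_ (by norm_num)
  rw [mul_sum]
  refine sum_le_sum fun x hx => ?_
  rw [mul_sum]
  refine sum_le_sum fun y hy => ?_
  have h1 := pow_le_pow_left₀ (abs_nonneg _) (h x hx y hy) 2
  rw [sq_abs, mul_pow, Complex.dist_eq, Complex.sq_norm, Complex.normSq_apply, Complex.sub_re,
    Complex.sub_im, sq] at h1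
  exact h1

/-- A potential with a nonnegative source grows with the domain. -/
theorem pot_mono {F' : Finset V} (hF' : G.Esc F') (hFF : F ⊆ F') (hf : ∀ x ∈ F', 0 ≤ f x) (x : V) :
    G.solve F 0 f 0 x ≤ G.solve F' 0 f 0 x := by
  have hF := hF'.mono hFF
  rw [G.solve_eq_sum (k := 0) hF fun _ _ => le_rfl, G.solve_eq_sum (k := 0) hF' fun _ _ => le_rfl]
  refine (sum_le_sum fun y hy => mul_le_mul_of_nonneg_right
    (G.green_mono hF' hFF (k := 0) (k' := 0) (fun _ _ => le_rfl) (fun _ _ => le_rfl) x y)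
    (hf y (hFF hy))).trans (sum_le_sum_of_subset_of_nonneg hFF fun y hy _ => ?_)
  exact mul_nonneg (G.green_nonneg (k := 0) hF' (fun _ _ => le_rfl) x y) (hf y hy)

theorem pot_nonneg (hF : G.Esc F) (hf : ∀ x ∈ F, 0 ≤ f x) (x : V) : 0 ≤ G.solve F 0 f 0 x := by
  rw [G.solve_eq_sum (k := 0) hF fun _ _ => le_rfl]
  exact sum_nonneg fun y hy =>
    mul_nonneg (G.green_nonneg (k := 0) hF (fun _ _ => le_rfl) x y) (hf y hy)

theorem lap_pot (hF : G.Esc F) {x : V} (hx : x ∈ F) : G.lap (G.solve F 0 f 0) x = f x := by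
  simpa using G.solve_in (k := 0) hF (fun _ _ => le_rfl) f 0 hx

end Pool.Agent.Lib.MP_0d9445_pr.Cell
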