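import Mathlib

/-! Arzela-Ascoli for multivalued asymptotically equicontinuous sequences, and weighted sums
against a uniformly convergent sequence. -/

open Set Filter Topology Metric

namespace Pool.Agent.Lib.MP_0d9445_pr.Cell

variable {X : Type*} [MetricSpace X]

/-- `R n w a` says that `a` is a value of the `n`-th function at `w`. -/
theorem arzela {K : Set X} (hK : IsCompact K) {R : ℕ → X → ℝ → Prop} {C : ℝ}
    (hex : ∀ᶠ n in atTop, ∀ w ∈ K, ∃ a, R n w a)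
    (hb : ∀ᶠ n in atTop, ∀ w ∈ K, ∀ a, R n w a → |a| ≤ C)
    (heq : ∀ c ∈ K, ∀ ε > 0, ∃ r > 0, ∀ᶠ n in atTop, ∀ w ∈ K ∩ ball c r, ∀ w' ∈ K ∩ ball c r,
      ∀ a a', R n w a → R n w' a' → a - a' ≤ ε) :
    ∃ φ : ℕ → ℕ, StrictMono φ ∧ ∃ u : C(X, ℝ), (∀ w ∈ K, |u w| ≤ C) ∧
      ∀ ε > 0, ∀ᶠ n in atTop, ∀ w ∈ K, ∀ a, R (φ n) w a → |a - u w| ≤ ε := by
  classical
  set 𝒰 : Ultrafilter ℕ := Ultrafilter.of atTop with h𝒰
  have hle : (𝒰 : Filter ℕ) ≤ atTop := Ultrafilter.of_le _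
  set U : ℕ → X → ℝ := fun n w => Classical.epsilon (R n w) with hU
  have hR : ∀ᶠ n in atTop, ∀ w ∈ K, R n w (U n w) :=
    hex.mono fun n hn w hw => Classical.epsilon_spec (hn w hw)
  have hlim : ∀ w, ∃ l, w ∈ K → l ∈ Icc (-C) C ∧ Tendsto (fun n => U n w) 𝒰 (𝓝 l) := fun w => by
    by_cases hw : w ∈ K
    · obtain ⟨l, hl, ht⟩ := isCompact_Icc.ultrafilter_le_nhds (𝒰.map fun n => U n w)
        (le_principal_iff.2 (hle (show ∀ᶠ n in atTop, U n w ∈ Icc (-C) C by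
          filter_upwards [hR, hb] with n h1 h2 using abs_le.1 (h2 w hw _ (h1 w hw)))))
      exact ⟨l, fun _ => ⟨hl, ht⟩⟩
    · exact ⟨0, fun hh => (hw hh).elim⟩
  choose u₀ hu₀ using hlim
  have hloc : ∀ c ∈ K, ∀ ε > 0, ∃ r > 0, (∀ w ∈ K ∩ ball c r, |u₀ w - u₀ c| ≤ ε) ∧
      ∀ᶠ n in (𝒰 : Filter ℕ), ∀ w ∈ K ∩ ball c r, ∀ a, R n w a → |a - u₀ w| ≤ 3 * ε := by
    intro c hc ε hε
    obtain ⟨r, hr, hn⟩ := heq c hc ε hε
    have hcc : c ∈ K ∩ ball c r := ⟨hc, mem_ball_self hr⟩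
    have h1 : ∀ w ∈ K ∩ ball c r, |u₀ w - u₀ c| ≤ ε := fun w hw =>
      le_of_tendsto (((hu₀ w hw.1).2.sub (hu₀ c hc).2).abs) (hle (by
        filter_upwards [hn, hR] with n k1 k2
        exact abs_sub_le_iff.2 ⟨k1 w hw c hcc _ _ (k2 w hw.1) (k2 c hc),
          k1 c hcc w hw _ _ (k2 c hc) (k2 w hw.1)⟩))
    refine ⟨r, hr, h1, ?_⟩
    filter_upwards [hle hn, hle hR, Metric.tendsto_nhds.1 (hu₀ c hc).2 ε hε] with n k1 k2 k3 w hw a ha
    rw [Real.dist_eq] at k3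
    have e1 := k1 w hw c hcc _ _ ha (k2 c hc)
    have e2 := k1 c hcc w hw _ _ (k2 c hc) ha
    have e3 := abs_le.1 (h1 w hw)
    have e4 := abs_lt.1 k3
    exact abs_le.2 ⟨by linarith, by linarith⟩
  have hcont : ContinuousOn u₀ K := fun c hc => Metric.continuousWithinAt_iff.2 fun ε hε => by
    obtain ⟨r, hr, h1, -⟩ := hloc c hc (ε / 2) (half_pos hε)
    exact ⟨r, hr, fun w hw hd => (h1 w ⟨hw, hd⟩).trans_lt (half_lt_self hε)⟩
  have hunif : ∀ ε > 0, ∀ᶠ n in (𝒰 : Filter ℕ), ∀ w ∈ K, ∀ a, R n w a → |a - u₀ w| ≤ ε := by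
    intro ε hε
    choose! r hr _ h2 using fun c hc => hloc c hc (ε / 3) (by positivity)
    obtain ⟨t, ht, hcov⟩ := hK.elim_nhds_subcover (fun c => ball c (r c))
      fun c hc => ball_mem_nhds c (hr c hc)
    filter_upwards [(eventually_all_finset t).2 fun c hc => h2 c (ht c hc)] with n hn w hw a ha
    obtain ⟨c, hc, hwc⟩ := mem_iUnion₂.1 (hcov hw)
    linarith [hn c hc w ⟨hw, hwc⟩ a ha]
  obtain ⟨φ, hφ, hP⟩ := extraction_forall_of_frequently
    (P := fun k n => ∀ w ∈ K, ∀ a, R n w a → |a - u₀ w| ≤ 1 / (k + 1 : ℝ))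
    fun k => ((hunif _ Nat.one_div_pos_of_nat).frequently).filter_mono hle
  obtain ⟨u, hu⟩ := ContinuousMap.exists_restrict_eq hK.isClosed
    (⟨K.domRestrict u₀, continuousOn_iff_continuous_domRestrict.1 hcont⟩ : C(K, ℝ))
  have e : ∀ w ∈ K, u w = u₀ w := fun w hw => DFunLike.congr_fun hu ⟨w, hw⟩
  refine ⟨φ, hφ, u, fun w hw => e w hw ▸ abs_le.2 (hu₀ w hw).1, fun ε hε => ?_⟩
  filter_upwards [tendsto_one_div_add_atTop_nhds_zero_nat.eventually (ge_mem_nhds hε)]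
    with n hn w hw a ha
  rw [e w hw]
  exact (hP n w hw a ha).trans hn

/-- Weighted sums of `v · u n` have the limit of the sums of `v · u` when `u n` is uniformly close
to `u` where `v` does not vanish. -/
theorem tendsto_sum_mul {V : ℕ → Type*} {l : Filter ℕ} {s : ∀ n, Finset (V n)}
    {w v u u' : ∀ n, V n → ℝ} (hw : ∀ n x, 0 ≤ w n x) {a b : ℝ}
    (h1 : Tendsto (fun n => ∑ x ∈ s n, w n x * (v n x * u n x)) l (𝓝 a))
    (h2 : Tendsto (fun n => ∑ x ∈ s n, w n x * |v n x|) l (𝓝 b))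
    (hu : ∀ ε > 0, ∀ᶠ n in l, ∀ x ∈ s n, v n x ≠ 0 → |u' n x - u n x| ≤ ε) :
    Tendsto (fun n => ∑ x ∈ s n, w n x * (v n x * u' n x)) l (𝓝 a) := by
  have h0 : Tendsto (fun n => ∑ x ∈ s n, w n x * (v n x * u' n x) -
      ∑ x ∈ s n, w n x * (v n x * u n x)) l (𝓝 0) := by
    refine Metric.tendsto_nhds.2 fun ε hε => ?_
    have hb : 0 < |b| + 1 := by positivity
    filter_upwards [hu (ε / (|b| + 1) / 2) (by positivity),
      h2.eventually (gt_mem_nhds ((le_abs_self b).trans_lt (lt_add_one _)))] with n k1 k2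
    rw [Real.dist_eq, sub_zero, ← Finset.sum_sub_distrib]
    refine (Finset.abs_sum_le_sum_abs _ _).trans_lt ?_
    have : ∀ x ∈ s n, |w n x * (v n x * u' n x) - w n x * (v n x * u n x)| ≤
        ε / (|b| + 1) / 2 * (w n x * |v n x|) := fun x hx => by
      rw [← mul_sub, ← mul_sub, abs_mul, abs_mul, abs_of_nonneg (hw n x), ← mul_assoc, mul_comm]
      by_cases hv : v n x = 0
      · simp [hv]
      · exact mul_le_mul_of_nonneg_right (k1 x hx hv) (mul_nonneg (hw n x) (abs_nonneg _))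
    refine (Finset.sum_le_sum this).trans_lt ?_
    rw [← Finset.mul_sum]
    calc _ ≤ ε / (|b| + 1) / 2 * (|b| + 1) := by gcongr
      _ = ε / 2 := by field_simp
      _ < ε := half_lt_self hε
  simpa using h0.add h1

end Pool.Agent.Lib.MP_0d9445_pr.Cell
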