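import Pool.Agent.Lib.MP_0d9445_pr.Cell.Win

/-! Level-set bound for the Green function of a window and the resulting bound for potentials. -/

open Set MeasureTheory
open scoped Classical

noncomputable section

namespace Pool.Agent.Lib.MP_0d9445_pr.Cell

variable {V : Type*} {G : Net V} {H : V → Set ℂ} {s : Finset V} {K : Set ℂ}

/-- The size of the cells near `c` at scale `r`. -/
def kap (H : V → Set ℂ) (s : Finset V) (d : V → ℝ) (c : ℂ) (r : ℝ) : ℝ :=
  ∑ x ∈ mt H s (sqC c (2 * r)), min 1 (d x / r) ^ 2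

theorem kap_nonneg (d : V → ℝ) (c : ℂ) (r : ℝ) : 0 ≤ kap H s d c r :=
  Finset.sum_nonneg fun _ _ => sq_nonneg _

/-- A vertex of an escaping set has a neighbour other than itself. -/
theorem exists_nbr_ne {F : Finset V} (hF : G.Esc F) {x : V} (hx : x ∈ F) :
    ∃ y ∈ G.N x, y ≠ x := by
  obtain ⟨y, hy, hr⟩ := hF x hx
  obtain ⟨a, b, hab, ha, hb⟩ := Net.exists_cross hr (fun z => if z = x then 0 else 1) 0
    (by simp) (by rw [if_neg (fun e : y = x => hy (e ▸ hx))]; exact one_pos)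
  have e1 : a = x := by
    by_contra hh
    simp only [if_neg hh] at ha
    exact absurd ha (by norm_num)
  exact ⟨b, e1 ▸ hab, fun e => by simp [e] at hb⟩

namespace CW

variable (h : CW G H s K)
include h

/-- A hash contour at scale `r` with oscillation controlled by the energy. -/
theorem exists_chash {c : ℂ} {r : ℝ} (hr : 0 < r) (hK : sqC c (2 * r) ⊆ K) {d : V → ℝ}
    (hd0 : ∀ x ∈ s, 0 ≤ d x) (hd : ∀ x ∈ s, ∀ v ∈ H x, ∀ w ∈ H x, dist v w ≤ d x) {u : V → ℝ}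
    {E : ℝ} (hE : G.en (mt H s (sqC c (2 * r))) u u ≤ E) : ∃ ρ ∈ Ioo (r / 2) r,
      ∀ x ∈ mt H s (chash c ρ (2 * r)), ∀ y ∈ mt H s (chash c ρ (2 * r)),
        u x - u y ≤ 4 * √(2 * E) * √(kap H s d c r) := by
  obtain ⟨ρ, hρ, ho⟩ := h.exists_osc (f := lev c) (lev_sub_le c) (L := fun ρ => chash c ρ (2 * r))
    (fun _ _ hw => exists_lev hw) (a := r / 2) (b := r) (by linarith)
    (fun ρ hρ => isPreconnected_chash c (by linarith [hρ.1]) (by linarith [hρ.2]))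
    (fun ρ _ => (chash_subset c ρ _).trans hK) (t := mt H s (sqC c (2 * r)))
    (fun ρ _ => mt_mono (chash_subset c ρ _)) (fun x hx => hd0 x (mt_subset _ hx))
    (fun x hx => hd x (mt_subset _ hx)) u
  refine ⟨ρ, hρ, fun x hx y hy => (ho x hx y hy).trans ?_⟩
  have hS : √(∑ x ∈ mt H s (sqC c (2 * r)), min (d x) (r - r / 2) ^ 2) ≤
      r * √(kap H s d c r) := by
    rw [← Real.sqrt_sq hr.le, ← Real.sqrt_mul (sq_nonneg _), Real.sqrt_sq hr.le, kap,
      Finset.mul_sum]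
    refine Real.sqrt_le_sqrt (Finset.sum_le_sum fun x hx => ?_)
    rw [← mul_pow, mul_min_of_nonneg _ _ hr.le, mul_one, mul_div_cancel₀ _ hr.ne', min_comm r]
    exact pow_le_pow_left₀ (le_min (hd0 x (mt_subset _ hx)) (by linarith))
      (min_le_min_left _ (by linarith)) 2
  rw [Fintype.card_bool, div_le_iff₀ (by linarith)]
  have h2 : √(2 * G.en (mt H s (sqC c (2 * r))) u u) ≤ √(2 * E) := by gcongr
  calc ((2 : ℕ) : ℝ) * (_ * _) ≤ 2 * (√(2 * E) * (r * √(kap H s d c r))) := by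
        rw [Nat.cast_ofNat]; gcongr
    _ = _ := by ring

/-- A function of bounded energy that vanishes on the cells leaving the big square is bounded on a
hash contour at every dyadic scale. -/
theorem exists_chash_le {c : ℂ} {R : ℝ} (hR : 0 < R) (hK : sqC c (2 * R) ⊆ K) {d : V → ℝ}
    (hd0 : ∀ x ∈ s, 0 ≤ d x) (hd : ∀ x ∈ s, ∀ v ∈ H x, ∀ w ∈ H x, dist v w ≤ d x) {u : V → ℝ}
    {E : ℝ} (hE : G.en s u u ≤ E) (h0 : ∀ x ∈ s, x ∉ ins H s (sqO c (2 * R)) → u x ≤ 0) (j : ℕ) :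
    ∃ ρ ∈ Ioo (R / 2 ^ j / 2) (R / 2 ^ j), ∀ x ∈ mt H s (chash c ρ (2 * (R / 2 ^ j))),
      u x ≤ 4 * √(2 * E) * ∑ i ∈ Finset.range (j + 1), √(kap H s d c (R / 2 ^ i)) := by
  have hb : ∀ i : ℕ, 0 < R / 2 ^ i := fun i => by positivity
  have hle : ∀ i : ℕ, R / 2 ^ i ≤ R := fun i => div_le_self hR.le (one_le_pow₀ one_le_two)
  have hKi : ∀ i : ℕ, sqC c (2 * (R / 2 ^ i)) ⊆ K := fun i =>
    (sqC_mono c (by linarith [hle i])).trans hK
  have step : ∀ i : ℕ, _ := fun i => h.exists_chash (hb i) (hKi i) hd0 hd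
    ((G.en_mono (mt_subset _) u).trans hE)
  induction j with
  | zero =>
    obtain ⟨ρ, hρ, ho⟩ := step 0
    refine ⟨ρ, hρ, fun x hx => ?_⟩
    obtain ⟨w, hw, hwf⟩ := chash_inter_frame c (r := ρ) (R := 2 * (R / 2 ^ 0))
      (ρ := 2 * (R / 2 ^ 0)) (by linarith [hρ.1, hb 0]) (by linarith [hρ.2, hb 0]) le_rfl
    obtain ⟨y, hy, hwy⟩ := h.exists_mem (hKi 0 (chash_subset _ _ _ hw))
    have e1 := ho x hx y (mem_mt.2 ⟨hy, w, hwy, hw⟩)
    have e2 := h0 y hy fun hh => by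
      have e3 : sn c w < 2 * R := (mem_ins.1 hh).2 hwy
      have e4 : sn c w = 2 * (R / 2 ^ 0) := hwf
      simp [e4] at e3
    rw [zero_add, Finset.sum_range_one]
    linarith
  | succ j ih =>
    obtain ⟨ρ', hρ', ih⟩ := ih
    obtain ⟨ρ, hρ, ho⟩ := step (j + 1)
    refine ⟨ρ, hρ, fun x hx => ?_⟩
    have e : R / 2 ^ (j + 1) = R / 2 ^ j / 2 := by rw [pow_succ, div_div]
    obtain ⟨w, hw, hwf⟩ := chash_inter_frame c (r := ρ) (R := 2 * (R / 2 ^ (j + 1))) (ρ := ρ')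
      (by linarith [hρ.1, hb (j + 1)]) (by linarith [hρ.2, hρ'.1]) (by linarith [hρ'.2])
    obtain ⟨y, hy, hwy⟩ := h.exists_mem (hKi (j + 1) (chash_subset _ _ _ hw))
    have e1 := ho x hx y (mem_mt.2 ⟨hy, w, hwy, hw⟩)
    have e2 := ih y (mem_mt.2 ⟨hy, w, hwy,
      frame_subset_chash c (by linarith [hρ'.2, hb j]) hwf⟩)
    rw [Finset.sum_range_succ, mul_add]
    linarith

/-- Level-set bound for the Green function with pole at a cell through `c`. -/
theorem green_le {U : Set ℂ} {c : ℂ} {R : ℝ} (hR : 0 < R) (hK : sqC c (2 * R) ⊆ K)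
    (hU : U ⊆ sqO c (2 * R)) {d : V → ℝ} (hd0 : ∀ x ∈ s, 0 ≤ d x)
    (hd : ∀ x ∈ s, ∀ v ∈ H x, ∀ w ∈ H x, dist v w ≤ d x) {y : V} (hy : c ∈ H y) (j : ℕ) {x : V}
    (hx : x ∈ s) {w : ℂ} (hw : w ∈ H x) (hwc : R / 2 ^ j ≤ sn c w) :
    G.green (ins H s U) 0 y x ≤
      32 * (∑ i ∈ Finset.range (j + 1), √(kap H s d c (R / 2 ^ i))) ^ 2 := by
  have hE : G.Esc (ins H s U) := (h.esc_sqO (by linarith) hK).mono (ins_mono hU)
  have hk : ∀ z ∈ ins H s U, (0 : ℝ) ≤ (0 : V → ℝ) z := fun _ _ => le_rfl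
  set g := G.green (ins H s U) 0 y with hg
  set M := g x with hM
  set T := ∑ i ∈ Finset.range (j + 1), √(kap H s d c (R / 2 ^ i)) with hT
  have hT0 : 0 ≤ T := Finset.sum_nonneg fun _ _ => Real.sqrt_nonneg _
  have hM0 : 0 ≤ M := G.green_nonneg hE hk y x
  obtain ⟨ρ, hρ, hle⟩ := h.exists_chash_le hR hK hd0 hd (u := fun z => min (g z) M)
    (G.en_green_min hE hk s y hM0) (fun z _ hz => by
      rw [hg, G.green_out hE hk y fun hh => hz (ins_mono hU hh)]
      exact min_le_left _ _) j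
  have hb : 0 < R / 2 ^ j := by positivity
  have key : M ≤ 4 * √(2 * M) * T := by
    by_contra hlt
    rw [not_le] at hlt
    refine hlt.not_ge (h.le_of_frame_out (hU.trans ((sqO_subset _ _).trans hK)) hE (c := c) (r := ρ)
      (u := g) (fun z hz hn => ?_) (fun z hz => ?_) (fun z _ hz => ?_) x hx fun hh => ?_)
    · have := G.green_in hE hk y hz
      rw [if_neg, Pi.zero_apply, zero_mul, add_zero] at this
      · exact this.le
      · rintro rfl
        exact hn (mem_mt.2 ⟨(mem_ins.1 hz).1, c, hy,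
          show sn c c ≤ ρ by rw [sn_self]; linarith [hρ.1]⟩)
    · have := hle z (mt_mono (frame_subset_chash c (by linarith [hρ.2])) hz)
      rcases min_le_iff.1 this with k | k
      · exact k
      · exact absurd k hlt.not_ge
    · rw [hg, G.green_out hE hk y hz]
      positivity
    · have : sn c w < ρ := (mem_ins.1 hh).2 hw
      linarith [hρ.2]
  have e : √(2 * M) ^ 2 = 2 * M := Real.sq_sqrt (by linarith)
  nlinarith [sq_nonneg (√(2 * M) - 8 * T), Real.sqrt_nonneg (2 * M)]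

/-- Bound for the potential of weights `f` inside a small set `U`. The centres `pos` of the
weighted cells have scale sums at most `κ`, are isolated at the finest scale, and the weights of
the centres near any centre are at most `m`. -/
theorem pot_le {U : Set ℂ} {R : ℝ} (hR : 0 < R) (hK : ∀ c ∈ U, sqC c (2 * R) ⊆ K)
    (hU : ∀ c ∈ U, U ⊆ sqO c (2 * R)) {d : V → ℝ} (hd0 : ∀ x ∈ s, 0 ≤ d x)
    (hd : ∀ x ∈ s, ∀ v ∈ H x, ∀ w ∈ H x, dist v w ≤ d x) {pos : V → ℂ}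
    (hpos : ∀ x ∈ s, pos x ∈ H x) {f : V → ℝ} (hf : ∀ y ∈ ins H s U, 0 ≤ f y) {J : ℕ}
    {κ m : ℕ → ℝ} (hκ : ∀ y ∈ ins H s U, f y ≠ 0 → ∀ j ≤ J, kap H s d (pos y) (R / 2 ^ j) ≤ κ j)
    (hiso : ∀ y ∈ ins H s U, f y ≠ 0 → ∀ x ∈ s, x ≠ y → R / 2 ^ J ≤ sn (pos y) (pos x))
    {x : V} (hx : x ∈ ins H s U)
    (hm : ∀ j ≤ J, ∑ y ∈ ins H s U with sn (pos x) (pos y) < 2 * (R / 2 ^ j), f y ≤ m j) :
    G.solve (ins H s U) 0 f 0 x ≤
      ∑ j ∈ Finset.range (J + 1), 32 * (∑ i ∈ Finset.range (j + 1), √(κ i)) ^ 2 * m j +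
        (1 + 32 * (∑ i ∈ Finset.range (J + 1), √(κ i)) ^ 2) * m J := by
  have hpU : ∀ y ∈ ins H s U, pos y ∈ U := fun y hy => (mem_ins.1 hy).2 (hpos y (mem_ins.1 hy).1)
  have hE : G.Esc (ins H s U) :=
    (h.esc_sqO (by linarith) (hK _ (hpU x hx))).mono (ins_mono (hU _ (hpU x hx)))
  have hk : ∀ z ∈ ins H s U, (0 : ℝ) ≤ (0 : V → ℝ) z := fun _ _ => le_rfl
  set b : ℕ → ℝ := fun j => 32 * (∑ i ∈ Finset.range (j + 1), √(κ i)) ^ 2 with hb
  have hb0 : ∀ j, 0 ≤ b j := fun j => by positivity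
  have hgb : ∀ y ∈ ins H s U, f y ≠ 0 → ∀ j ≤ J, ∀ z ∈ s, R / 2 ^ j ≤ sn (pos y) (pos z) →
      G.green (ins H s U) 0 y z ≤ b j := by
    intro y hy hfy j hj z hz hle
    refine (h.green_le hR (hK _ (hpU y hy)) (hU _ (hpU y hy)) hd0 hd (hpos y (mem_ins.1 hy).1) j hz
      (hpos z hz) hle).trans ?_
    have : ∑ i ∈ Finset.range (j + 1), √(kap H s d (pos y) (R / 2 ^ i)) ≤
        ∑ i ∈ Finset.range (j + 1), √(κ i) := Finset.sum_le_sum fun i hi =>
      Real.sqrt_le_sqrt (hκ y hy hfy i ((Nat.lt_succ_iff.1 (Finset.mem_range.1 hi)).trans hj))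
    simp only [hb]
    gcongr
  have hoff : ∀ y ∈ (ins H s U).erase x, G.green (ins H s U) 0 x y * f y ≤
      ∑ j ∈ Finset.range (J + 1),
        b j * if sn (pos x) (pos y) < 2 * (R / 2 ^ j) then f y else 0 := by
    intro y hy
    obtain ⟨hne, hy⟩ := Finset.mem_erase.1 hy
    have hnn : ∀ j ∈ Finset.range (J + 1),
        0 ≤ b j * if sn (pos x) (pos y) < 2 * (R / 2 ^ j) then f y else 0 := fun j _ =>
      mul_nonneg (hb0 j) (by split_ifs; exacts [hf y hy, le_rfl])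
    by_cases hfy : f y = 0
    · rw [hfy, mul_zero]
      simp
    have hex : ∃ j, R / 2 ^ j ≤ sn (pos y) (pos x) :=
      ⟨J, hiso y hy hfy x (mem_ins.1 hx).1 hne.symm⟩
    have hj : Nat.find hex ≤ J := Nat.find_min' hex (hiso y hy hfy x (mem_ins.1 hx).1 hne.symm)
    have hlt : sn (pos x) (pos y) < 2 * (R / 2 ^ Nat.find hex) := by
      rcases Nat.eq_zero_or_pos (Nat.find hex) with e | e
      · rw [e, pow_zero, div_one]
        exact hU _ (hpU x hx) (hpU y hy)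
      · obtain ⟨i, hi⟩ := Nat.exists_eq_succ_of_ne_zero e.ne'
        have := not_le.1 (Nat.find_min hex (m := i) (by omega))
        rw [hi, Nat.succ_eq_add_one, pow_succ, ← div_div, sn_comm]
        linarith
    refine le_trans ?_ (Finset.single_le_sum hnn (Finset.mem_range.2 (Nat.lt_succ_of_le hj)))
    rw [if_pos hlt, G.green_symm hE hk]
    exact mul_le_mul_of_nonneg_right
      (hgb y hy hfy _ hj x (mem_ins.1 hx).1 (Nat.find_spec hex)) (hf y hy)
  have hfx : f x ≤ m J := by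
    refine le_trans ?_ (hm J le_rfl)
    exact Finset.single_le_sum (f := f) (fun y hy => hf y (Finset.mem_filter.1 hy).1)
      (Finset.mem_filter.2 ⟨hx, by rw [sn_self]; positivity⟩)
  have hdiag : G.green (ins H s U) 0 x x * f x ≤ (1 + b J) * m J := by
    by_cases hfy : f x = 0
    · rw [hfy, mul_zero]
      exact mul_nonneg (by linarith [hb0 J]) (hfy ▸ hfx)
    obtain ⟨y, hy, hne⟩ := exists_nbr_ne hE hx
    have hys : y ∈ s := (h.nbr x (mem_ins.1 hx).1 ((mem_ins.1 hx).2.trans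
      ((hU _ (hpU x hx)).trans ((sqO_subset _ _).trans (hK _ (hpU x hx))))) y hy).1
    have := (G.green_diag_le hE hk hy).trans
      (add_le_add_right (hgb x hx hfy J le_rfl y hys (hiso x hx hfy y hys hne)) 1)
    exact mul_le_mul this hfx (hf x hx) (by linarith [hb0 J])
  rw [G.solve_eq_sum hE hk, ← Finset.sum_erase_add _ _ hx]
  refine add_le_add ((Finset.sum_le_sum hoff).trans ?_) hdiag
  rw [Finset.sum_comm]
  refine Finset.sum_le_sum fun j hj => ?_
  rw [← Finset.mul_sum]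
  refine mul_le_mul_of_nonneg_left (le_trans ?_ (hm j (Nat.lt_succ_iff.1
    (Finset.mem_range.1 hj)))) (hb0 j)
  rw [Finset.sum_filter]
  exact Finset.sum_le_sum_of_subset_of_nonneg (Finset.erase_subset _ _) fun y hy _ => by
    split_ifs
    exacts [hf y hy, le_rfl]

end CW

end Pool.Agent.Lib.MP_0d9445_pr.Cell
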